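import Pool.Agent.V11273.GH.I1

/-!
# Hodge tensors of all sizes at almost all integral fibres of arbitrary variations of Hodge structure over the line

Let `𝕍_1, …, 𝕍_k` be polarizable variations of `ℤ`-Hodge structure of geometric origin over open parts of the projective line
over `ℚ`, near the point `x = 0`, which may be a singular point with unipotent monodromy (replace `x` by a root of `x`). The
period matrix `P_i(x)` of `𝕍_i` has as rows the coordinates with respect to a flat basis of the lattice, and as columns the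
elements of a basis over `ℚ(x)` of the algebraic bundle which is adapted to the Hodge filtration. Its entries are
combinations with complex coefficients of products of powers of `log x` and of G-functions: the members of a vector `h_i`
of G-functions over `ℚ` which solves a linear differential system `T y' = A y` with the conditions of Siegel and Galochkin
(`GFamily`). The monodromy group `Γ_i` consists of integral matrices, preserves the polarization `S_i`, and is Zariski dense in
the differential Galois group `G_i` (Schlesinger), which is here the group of all `g` such that `g` and `g⁻¹` preserve all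
polynomial relations over `ℂ(x)` of `P_i` (`Variation`). Let `H` be a fixed polarized Hodge structure.

**Theorem.** Let `D ≥ 0`. There are `c > 0` and `C` with the following property. For all but
`C N^(k-1) ∑_i (1 + N / (x_i + N)^c)` of the tuples `t` of integers with `x_i < t_i ≤ x_i + N`, at which the `P_i(1 / t_i)` are period
matrices of Hodge structures polarized by `S_i`, ALL integral Hodge tensors of degree at most `D`, of any size, of the Hodge
structure `H ⊕ 𝕍_1(1 / t_1) ⊕ … ⊕ 𝕍_k(1 / t_k)` are fixed by the identity components of `G_1, …, G_k`. The same is true with a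
function `D = D(N) → ∞` for all but `o(N^k)` tuples in `[1, N]^k`.

By the theorem of the fixed part, a Hodge tensor which is fixed by the identity component is (after a finite covering) a
Hodge tensor at all points. So, for `k = 1`, a point of the Hodge locus of the tensors of degree at most `D` is at most at
`C (1 + N^(1-c))` of the points `1 / t`, `t ≤ N`. For `dim S = 1` these points are atypical unless the period domain is a half plane, so
that by Q1 they should be finitely many. For `k > 1`, all Hodge classes on the products of the fibres (for instance all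
isogenies and all correspondences between the fibres) come from the generic ones, outside of the exceptional set.

The Hodge locus of a variation of Hodge structure over a curve over `ℚ` is a countable set of points (Cattani-Deligne-Kaplan), and
it is not known in general that it does not contain all algebraic points. For abelian varieties (and other motives for
which Hodge tensors are known to be absolute) the result follows, with another bound, from the theorem of Deligne on absolute Hodge
cycles and from Hilbert's irreducibility theorem for the `ℓ`-adic representations (Serre, André). The starting theorem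
HodgeGenericIntegralPoints treats the hypergeometric variations with Galois group `Sp(2m)`, `m ≥ 4` (finitely many exceptions),
and MP_0704bf_ag.HodgeLocusBoundedHeight tensors of bounded size, for all algebraic points.

Proof. By the theorem on relations of all heights between values of G-functions at almost all integral points (`Pool.Agent.Y120.R.gx`
of the library, `Pool/Agent/V11273/GH`), a Hodge tensor `γ` at a point outside of the exceptional set remains a Hodge tensor after
all translations by elements of the Galois group, as this is a condition given by the vanishing of linear combinations with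
integral coefficients of products of at most `D` periods. The translates by elements of the monodromy group are integral, and
have the same norm in the Hodge metric, which for Hodge tensors is given by the polarization. So the orbit is finite, and the
stabilizer is a closed subgroup of finite index of the Galois group (`Pool/Agent/V11273/PV/H3`).
-/

set_option autoImplicit false

open PowerSeries Filter
open scoped Matrix

namespace Pool.Agent.Results.MP_0704bf_ag.AllTensorsIntegralFibres

/-- an integer polynomial as a power series with rational coefficients -/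
noncomputable def toQ (P : Polynomial ℤ) : PowerSeries ℚ := ((P.map (Int.castRingHom ℚ) : Polynomial ℚ) : PowerSeries ℚ)

/-- the power series `P(u^e)` -/
noncomputable def atPow (e : ℕ) (P : Polynomial ℤ) : PowerSeries ℂ :=
  ((Polynomial.expand ℂ e (P.map (Int.castRingHom ℂ)) : Polynomial ℂ) : PowerSeries ℂ)

/-- the matrices `G_s` over `ℤ[x]` with `T^s y^(s) = G_s y` for all solutions `y` of `T y' = A y` -/
noncomputable def iter {r : ℕ} (T : Polynomial ℤ) (A : Fin r → Fin r → Polynomial ℤ) : ℕ → Fin r → Fin r → Polynomial ℤ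
  | 0 => fun i j => if i = j then 1 else 0
  | s + 1 => fun i j => T * Polynomial.derivative (iter T A s i j) + ∑ l, iter T A s i l * A l j -
      (s : Polynomial ℤ) * (Polynomial.derivative T * iter T A s i j)

/-- The system `T y' = A y` has a fundamental matrix of solutions of the form `u^(-M) ∑_n Φ_n(u) (log u)^n` with
`u^e = x` and convergent power series `Φ_n`: the point `0` is regular or a regular singularity with rational
exponents. -/
def QuasiUnipotent {r : ℕ} (T : Polynomial ℤ) (A : Fin r → Fin r → Polynomial ℤ) : Prop :=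
  ∃ (e M : ℕ) (K : ℝ) (Φ : Matrix (Fin r) (Fin r) (Polynomial (PowerSeries ℂ))), 1 ≤ e ∧ Φ.det ≠ 0 ∧
    (∀ i j n m, ‖coeff m ((Φ i j).coeff n)‖ ≤ K ^ (m + 1)) ∧
    ∀ i j n, atPow e T * (X * PowerSeries.derivative ℂ ((Φ i j).coeff n) +
        ((n : PowerSeries ℂ) + 1) * (Φ i j).coeff (n + 1) - (M : PowerSeries ℂ) * (Φ i j).coeff n) =
      (e : PowerSeries ℂ) * X ^ e * ∑ l, atPow e (A i l) * (Φ l j).coeff n

/-- `h_1, ..., h_r` are G-functions with rational coefficients which solve the differential system `T y' = A y`, with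
the conditions of Siegel and Galochkin, and `0` is a regular point or a regular singularity with rational exponents of
the system. -/
structure GFamily {r : ℕ} (T : Polynomial ℤ) (A : Fin r → Fin r → Polynomial ℤ) (h : Fin r → PowerSeries ℚ) : Prop where
  /-- the denominator is not zero -/
  T_ne : T ≠ 0
  /-- the differential equations -/
  ode : ∀ i, toQ T * PowerSeries.derivative ℚ (h i) = ∑ j, toQ (A i j) * h j
  /-- the coefficients have geometric growth -/
  size : ∃ C : ℝ, ∀ i m, |((coeff m (h i) : ℚ) : ℝ)| ≤ C ^ (m + 1)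
  /-- the common denominators of the coefficients have geometric growth -/
  den : ∃ C : ℝ, ∀ m : ℕ, ∃ d : ℕ, 0 < d ∧ (d : ℝ) ≤ C ^ (m + 1) ∧ ∀ i, ∀ j ≤ m, ∃ a : ℤ, (d : ℚ) * coeff j (h i) = a
  /-- Galochkin's condition: the common denominators of the matrices `G_s / s!` have geometric growth -/
  galochkin : ∃ C : ℝ, ∀ m : ℕ, ∃ d : ℕ, 0 < d ∧ (d : ℝ) ≤ C ^ (m + 1) ∧ ∀ s ≤ m, ∀ i j,
    ∃ H : Polynomial ℤ, (d : Polynomial ℤ) * iter T A s i j = (s.factorial : Polynomial ℤ) * H
  /-- the local exponents at `0` are rational and the singularity is regular -/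
  regular : QuasiUnipotent T A

theorem iter_eq {r : ℕ} (T : Polynomial ℤ) (A : Fin r → Fin r → Polynomial ℤ) (s : ℕ) :
    iter T A s = Pool.Agent.Y120.GH.itm T A s := by
  induction s with
  | zero => rfl
  | succ s ih =>
    funext i j
    rw [iter, Pool.Agent.Y120.GH.itm, ih]

theorem qu_eq {r : ℕ} {T : Polynomial ℤ} {A : Fin r → Fin r → Polynomial ℤ} (h : QuasiUnipotent T A) :
    Pool.Agent.Y120.GH.QU0 T A := by
  obtain ⟨e, M, K, Φ, he, hdet, hc, heq⟩ := h
  have he0 : e ≠ 0 := by omega
  refine ⟨e, he0, M, K, Φ, hc, fun i j n => ?_, hdet⟩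
  have h1 := heq i j n
  simp only [atPow] at h1
  rw [Pool.Agent.Y120.GH.expand_poly he0]
  simp only [Pool.Agent.Y120.GH.expand_poly he0]
  exact h1

theorem fam {r : ℕ} {T : Polynomial ℤ} {A : Fin r → Fin r → Polynomial ℤ} {h : Fin r → PowerSeries ℚ}
    (hG : GFamily T A h) (δ : ℕ) : Pool.Agent.Y120.R.Fam δ h :=
  ⟨hG.size, Pool.Agent.Y120.GH.family_main hG.T_ne hG.ode hG.size hG.den (by
    obtain ⟨C, hC⟩ := hG.galochkin
    refine ⟨C, fun m => ?_⟩
    obtain ⟨d, h1, h2, h3⟩ := hC m
    refine ⟨d, h1, h2, fun s hs i' j' => ?_⟩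
    rw [← iter_eq]
    exact h3 s hs i' j') (qu_eq hG.regular) δ⟩

section family
variable {r n : ℕ}

/-- The period matrix at `x = 1 / s`: the entries are the polynomials `P a b` in `log s` and in the `h_l(1 / s)`. -/
noncomputable def perMat (h : Fin r → PowerSeries ℚ) (P : Fin n → Fin n → MvPolynomial (Option (Fin r)) ℂ) (s : ℝ) :
    Matrix (Fin n) (Fin n) ℂ :=
  Matrix.of fun a b => MvPolynomial.aeval (fun o : Option (Fin r) => o.elim ((Real.log s : ℝ) : ℂ)
    fun l => ((∑' m : ℕ, ((coeff m (h l) : ℚ) : ℝ) * (1 / s) ^ m : ℝ) : ℂ)) (P a b)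

/-- the value at `x = 1 / s` and at the matrix `Z` of a polynomial in the entries of a matrix over `ℂ[x]` -/
noncomputable def relAt (R : MvPolynomial (Fin n × Fin n) (Polynomial ℂ)) (s : ℝ) (Z : Matrix (Fin n) (Fin n) ℂ) : ℂ :=
  MvPolynomial.eval₂ (Polynomial.evalRingHom (1 / (s : ℂ))) (fun v => Z v.1 v.2) R

/-- `g P(x)` satisfies all polynomial relations over `ℂ[x]` which `P(x)` satisfies. -/
def Preserves (h : Fin r → PowerSeries ℚ) (P : Fin n → Fin n → MvPolynomial (Option (Fin r)) ℂ)
    (g : Matrix (Fin n) (Fin n) ℂ) : Prop :=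
  ∀ R : MvPolynomial (Fin n × Fin n) (Polynomial ℂ), (∀ᶠ s : ℝ in Filter.atTop, relAt R s (perMat h P s) = 0) →
    ∀ᶠ s : ℝ in Filter.atTop, relAt R s (g * perMat h P s) = 0

/-- The group of the matrices `g` such that `g` and `g⁻¹` preserve the relations. If `P` is a fundamental matrix of a linear
differential system over `ℂ(x)` this is its differential Galois group. -/
noncomputable def Gal (h : Fin r → PowerSeries ℚ) (P : Fin n → Fin n → MvPolynomial (Option (Fin r)) ℂ) :
    Subgroup (Matrix.GeneralLinearGroup (Fin n) ℂ) where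
  carrier := {g | Preserves h P (g : Matrix (Fin n) (Fin n) ℂ) ∧
    Preserves h P ((g⁻¹ : Matrix.GeneralLinearGroup (Fin n) ℂ) : Matrix (Fin n) (Fin n) ℂ)}
  mul_mem' := fun hg hg' => (Pool.Agent.Y123.GN.Gs h P).mul_mem' hg hg'
  one_mem' := (Pool.Agent.Y123.GN.Gs h P).one_mem'
  inv_mem' := fun hg => (Pool.Agent.Y123.GN.Gs h P).inv_mem' hg

theorem gal_eq (h : Fin r → PowerSeries ℚ) (P : Fin n → Fin n → MvPolynomial (Option (Fin r)) ℂ) :
    Gal h P = Pool.Agent.Y123.GN.Gs h P := rfl

/-- the subgroup `H` of `G` is defined by polynomial equations -/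
def ClosedIn {G : Subgroup (Matrix.GeneralLinearGroup (Fin n) ℂ)} (H : Subgroup G) : Prop :=
  ∃ E : Set (MvPolynomial (Fin n × Fin n) ℂ), ∀ h : G, h ∈ H ↔
    ∀ e ∈ E, MvPolynomial.eval (fun v => ((h : Matrix.GeneralLinearGroup (Fin n) ℂ) : Matrix (Fin n) (Fin n) ℂ) v.1 v.2) e = 0

/-- the elements of `G` which lie in all closed subgroups of finite index of `G` -/
def identityComponent (G : Subgroup (Matrix.GeneralLinearGroup (Fin n) ℂ)) : Set (Matrix.GeneralLinearGroup (Fin n) ℂ) :=
  {g | ∃ hg : g ∈ G, ∀ H : Subgroup G, H.FiniteIndex → ClosedIn H → (⟨g, hg⟩ : G) ∈ H}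

end family

section
variable {k r : ℕ} {n : Fin k → ℕ} {ρ : Fin k → ℕ}

/-- The Hodge structure with the period matrix `Y` has a basis `Z` adapted to the Hodge decomposition and unitary for the Hodge
metric: `Z_b` is in `F^(p b)` (the span of the columns `a` of `Y` with `p a ≥ p b`), its conjugate is in the span of the `Z_a` with
`p a = w - p b`, and `S(Z_a, conj Z_b) = i ^ (w - 2 p b)` if `a = b`, and `0` if not. -/
def HasUnitaryBasis {r : ℕ} (p : Fin r → ℤ) (w : ℤ) (S Y : Matrix (Fin r) (Fin r) ℂ) : Prop :=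
  ∃ Z T M : Matrix (Fin r) (Fin r) ℂ, Z = Y * T ∧ (∀ a b, T a b ≠ 0 → p b ≤ p a) ∧
    Z.map (starRingEnd ℂ) = Z * M ∧ (∀ a b, M a b ≠ 0 → p a + p b = w) ∧
    Zᵀ * S * Z.map (starRingEnd ℂ) = Matrix.diagonal fun b => Complex.I ^ (w - 2 * p b)

/-- a polarized Hodge structure of rank `r`: the weight, the levels of the columns, the polarization, the period matrix -/
structure HodgeStructure (r : ℕ) where
  /-- the weight -/
  w : ℤ
  /-- the levels of the columns in the Hodge filtration -/
  p : Fin r → ℤ
  /-- the polarization -/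
  S : Matrix (Fin r) (Fin r) ℂ
  /-- the period matrix: the columns with `p a ≥ q` are a basis of `F^q` -/
  C₀ : Matrix (Fin r) (Fin r) ℂ
  /-- the Hodge decomposition and the positivity of the Hodge metric -/
  basis : HasUnitaryBasis p w S C₀

/-- a polarized variation of Hodge structure with the period matrix `P` -/
structure Variation {ρ n : ℕ} (h : Fin ρ → PowerSeries ℚ) (P : Fin n → Fin n → MvPolynomial (Option (Fin ρ)) ℂ) where
  /-- the weight -/
  w : ℤ
  /-- the levels of the columns in the Hodge filtration -/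
  p : Fin n → ℤ
  /-- the polarization in the flat basis -/
  S : Matrix (Fin n) (Fin n) ℂ
  /-- the monodromy group -/
  monodromy : Subgroup (Matrix.GeneralLinearGroup (Fin n) ℂ)
  le_galois : monodromy ≤ Gal h P
  /-- the monodromy group is Zariski dense in the Galois group -/
  dense : ∀ Q : MvPolynomial (Fin n × Fin n) ℂ,
    (∀ g ∈ monodromy, MvPolynomial.eval (fun v => (g : Matrix (Fin n) (Fin n) ℂ) v.1 v.2) Q = 0) →
    ∀ g ∈ Gal h P, MvPolynomial.eval (fun v => (g : Matrix (Fin n) (Fin n) ℂ) v.1 v.2) Q = 0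
  /-- it consists of integral matrices -/
  integral : ∀ g ∈ monodromy, ∀ a b, ∃ m : ℤ, (g : Matrix (Fin n) (Fin n) ℂ) a b = m
  /-- it preserves the polarization -/
  preserves : ∀ g ∈ monodromy, (g : Matrix (Fin n) (Fin n) ℂ)ᵀ * S * (g : Matrix (Fin n) (Fin n) ℂ) = S

/-- the block matrix `x ⊕ X_1 ⊕ … ⊕ X_k` -/
noncomputable def total (x : Matrix (Fin r) (Fin r) ℂ) (X : ∀ i, Matrix (Fin (n i)) (Fin (n i)) ℂ) :
    Matrix (Fin r ⊕ Σ i, Fin (n i)) (Fin r ⊕ Σ i, Fin (n i)) ℂ :=
  Matrix.fromBlocks x 0 0 (Matrix.blockDiagonal' X)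

/-- the product of the tensor `γ` of degree `m` with the column `J` of the `m`-th tensor power of the matrix `Z` -/
noncomputable def times {I : Type} [Fintype I] {m : ℕ} (γ : (Fin m → I) → ℂ) (Z : Matrix I I ℂ) (J : Fin m → I) : ℂ :=
  ∑ a, γ a * ∏ i, Z (a i) (J i)

variable {h : ∀ i, Fin (ρ i) → PowerSeries ℚ} {P : ∀ i, Fin (n i) → Fin (n i) → MvPolynomial (Option (Fin (ρ i))) ℂ}

/-- the level of a column of the sum of the fixed Hodge structure and of the fibres -/
def level (H : HodgeStructure r) (V : ∀ i, Variation (h i) (P i)) : (Fin r ⊕ Σ i, Fin (n i)) → ℤ :=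
  Sum.elim H.p fun v : Σ i, Fin (n i) => (V v.1).p v.2

/-- the weight of a column of the sum of the fixed Hodge structure and of the fibres -/
def weight (H : HodgeStructure r) (V : ∀ i, Variation (h i) (P i)) : (Fin r ⊕ Σ i, Fin (n i)) → ℤ :=
  Sum.elim (fun _ => H.w) fun v : Σ i, Fin (n i) => (V v.1).w

/-- `γ`, an element of the `m`-th tensor power of the dual of `H ⊕ 𝕍_1(1 / t_1) ⊕ … ⊕ 𝕍_k(1 / t_k)`, is a Hodge tensor: it is
orthogonal to the elements of the tensor power of level more than half of the weight -/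
def IsHodge (H : HodgeStructure r) (V : ∀ i, Variation (h i) (P i)) (t : Fin k → ℕ) {m : ℕ}
    (γ : (Fin m → Fin r ⊕ Σ i, Fin (n i)) → ℂ) : Prop :=
  ∀ J : Fin m → Fin r ⊕ Σ i, Fin (n i), ∑ i, weight H V (J i) < 2 * ∑ i, level H V (J i) →
    times γ (total H.C₀ fun i => perMat (h i) (P i) (t i : ℝ)) J = 0

/-- The fibres at `t` are polarized Hodge structures, and there is an integral Hodge tensor `γ` of degree `m ≤ D` (of any size) of
`H ⊕ 𝕍_1(1 / t_1) ⊕ … ⊕ 𝕍_k(1 / t_k)` which is not fixed by some element of the product of the identity components of the Galois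
groups. -/
def Exceptional (D : ℕ) (H : HodgeStructure r) (V : ∀ i, Variation (h i) (P i)) (t : Fin k → ℕ) : Prop :=
  (∀ i, HasUnitaryBasis (V i).p (V i).w (V i).S (perMat (h i) (P i) (t i : ℝ))) ∧ ∃ m ≤ D,
    ∃ γ : (Fin m → Fin r ⊕ Σ i, Fin (n i)) → ℤ, IsHodge H V t (fun a => (γ a : ℂ)) ∧
      ∃ g : ∀ i, Matrix.GeneralLinearGroup (Fin (n i)) ℂ, (∀ i, g i ∈ identityComponent (Gal (h i) (P i))) ∧
        times (fun a => (γ a : ℂ)) (total 1 fun i => (g i : Matrix (Fin (n i)) (Fin (n i)) ℂ)) ≠ fun a => (γ a : ℂ)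

end

/-- **The theorem.** -/
theorem result (k e r : ℕ) (ρ n : Fin k → ℕ) (T : Fin k → Polynomial ℤ)
    (A : ∀ i, Fin (ρ i) → Fin (ρ i) → Polynomial ℤ) (h : ∀ i, Fin (ρ i) → PowerSeries ℚ)
    (hG : ∀ i, GFamily (T i) (A i) (h i)) :
    -- tensors of degree at most `D`
    (∀ D : ℕ, ∃ c C : ℝ, 0 < c ∧ 0 ≤ C ∧ ∀ P : ∀ i, Fin (n i) → Fin (n i) → MvPolynomial (Option (Fin (ρ i))) ℂ,
      (∀ i a b, (P i a b).totalDegree ≤ e) → ∀ (H : HodgeStructure r) (V : ∀ i, Variation (h i) (P i))
        (x : Fin k → ℕ) (N : ℕ), 1 ≤ N →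
      (({t : Fin k → ℕ | (∀ i, x i < t i ∧ t i ≤ x i + N) ∧ Exceptional D H V t}.ncard : ℕ) : ℝ) ≤
        C * (N : ℝ) ^ (k - 1) * ∑ i, (1 + N / ((x i : ℝ) + N) ^ c)) ∧
    -- tensors of degree at most `D N`, which tends to infinity
    (∃ (D : ℕ → ℕ) (δ : ℕ → ℝ), Tendsto D atTop atTop ∧ Tendsto δ atTop (nhds 0) ∧
      ∀ P : ∀ i, Fin (n i) → Fin (n i) → MvPolynomial (Option (Fin (ρ i))) ℂ,
      (∀ i a b, (P i a b).totalDegree ≤ e) → ∀ (H : HodgeStructure r) (V : ∀ i, Variation (h i) (P i)) (N : ℕ), 1 ≤ N →
      (({t : Fin k → ℕ | (∀ i, 1 ≤ t i ∧ t i ≤ N) ∧ Exceptional (D N) H V t}.ncard : ℕ) : ℝ) ≤ δ N * (N : ℝ) ^ k) := by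
  classical
  have hmain : ∀ D : ℕ, ∃ c C : ℝ, 0 < c ∧ 0 ≤ C ∧ ∀ P : ∀ i, Fin (n i) → Fin (n i) → MvPolynomial (Option (Fin (ρ i))) ℂ,
      (∀ i a b, (P i a b).totalDegree ≤ e) → ∀ (H : HodgeStructure r) (V : ∀ i, Variation (h i) (P i))
        (x : Fin k → ℕ) (N : ℕ), 1 ≤ N →
      (({t : Fin k → ℕ | (∀ i, x i < t i ∧ t i ≤ x i + N) ∧ Exceptional D H V t}.ncard : ℕ) : ℝ) ≤
        C * (N : ℝ) ^ (k - 1) * ∑ i, (1 + N / ((x i : ℝ) + N) ^ c) := by
    intro D
    obtain ⟨c, C, hc, hC, hmain⟩ := Pool.Agent.V11273.GH.hodge_main k D e r ρ n h fun i δ => fam (hG i) δ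
    refine ⟨c, C, hc, hC, ?_⟩
    intro P hP H V x N hN
    set E := {t : Fin k → ℕ | (∀ i, x i < t i ∧ t i ≤ x i + N) ∧ Exceptional D H V t} with hE
    have hfin : E.Finite := by
      refine (Set.finite_Iic (fun i : Fin k => x i + N)).subset ?_
      intro t ht i
      exact (ht.1 i).2
    rw [Set.ncard_eq_toFinset_card E hfin]
    refine hmain P hP H.p H.w H.S H.C₀ H.basis (fun i => (V i).p) (fun i => (V i).w) (fun i => (V i).S)
      (fun i => (V i).monodromy) (fun i => (V i).le_galois) (fun i => (V i).dense) (fun i => (V i).integral)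
      (fun i => (V i).preserves) x N hN _ fun t ht => ?_
    have ht' : t ∈ E := hfin.mem_toFinset.1 ht
    exact ht'
  refine ⟨hmain, ?_⟩
  choose c C hc hC hcount using hmain
  obtain ⟨D, hD, hδ⟩ := Pool.Agent.Y123.GN.diag_seq
    (fun D N => C D * k * (1 / (N : ℝ) + 1 / (N : ℝ) ^ (c D))) (by
      intro D
      have h1 : Tendsto (fun N : ℕ => (1 : ℝ) / (N : ℝ)) atTop (nhds 0) := tendsto_one_div_atTop_nhds_zero_nat
      have h2 : Tendsto (fun N : ℕ => (1 : ℝ) / (N : ℝ) ^ (c D)) atTop (nhds 0) := by
        have h3 := (tendsto_rpow_atTop (hc D)).comp tendsto_natCast_atTop_atTop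
        have h4 := h3.inv_tendsto_atTop
        refine h4.congr fun N => ?_
        rw [one_div]
        rfl
      have h5 := (h1.add h2).const_mul (C D * k)
      rw [add_zero, mul_zero] at h5
      exact h5)
  refine ⟨D, _, hD, hδ, ?_⟩
  intro P hP H V N hN
  have h1 := hcount (D N) P hP H V (fun _ => 0) N hN
  have h2 : {t : Fin k → ℕ | (∀ i, 0 < t i ∧ t i ≤ 0 + N) ∧ Exceptional (D N) H V t} =
      {t : Fin k → ℕ | (∀ i, 1 ≤ t i ∧ t i ≤ N) ∧ Exceptional (D N) H V t} := by
    ext t
    simp only [Set.mem_ofPred_eq, zero_add, Nat.lt_iff_add_one_le]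
  rw [h2] at h1
  refine h1.trans (le_of_eq ?_)
  have hN0 : (N : ℝ) ≠ 0 := by
    have : N ≠ 0 := by omega
    exact_mod_cast this
  rw [Finset.sum_const, Finset.card_univ, Fintype.card_fin, nsmul_eq_mul, Nat.cast_zero, zero_add]
  rcases Nat.eq_zero_or_pos k with hk | hk
  · subst hk
    simp
  · obtain ⟨q, rfl⟩ : ∃ q, k = q + 1 := ⟨k - 1, by omega⟩
    have h3 : (N : ℝ) ^ (q + 1) = (N : ℝ) ^ q * N := pow_succ _ _
    rw [Nat.add_sub_cancel, h3]
    have h4 : (1 : ℝ) + N / (N : ℝ) ^ (c (D N)) = N * (1 / (N : ℝ) + 1 / (N : ℝ) ^ (c (D N))) := by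
      rw [mul_add, mul_one_div_cancel hN0, mul_one_div]
    rw [h4]
    ring

end Pool.Agent.Results.MP_0704bf_ag.AllTensorsIntegralFibres
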