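import Pool.Agent.V11273.PV.H2

/-!
# Algebraic points of bounded height on the Hodge locus of an arbitrary variation of Hodge structure

Let `𝕍` be a polarizable variation of `ℤ`-Hodge structures over an open part `S` of an affine space of dimension `d ≥ 1` (every
`S` is finite over such a base, and one can take the direct image). Its flat bundle has regular singularities and is algebraic,
and so are the bundles of the Hodge filtration. It is given here by

* (`Family`) an algebraic connection `c ∂_i Y = Y B_i`, with the invertible matrix `Y` of the coordinates, with respect to a flat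
  basis of `𝕍` on a connected open set `U` (rows), of the elements of an algebraic basis (columns) of the bundle;
* (`Variation`) the weight `w`; the levels `p_b` of the columns: the columns with `p_b ≥ p` are a basis of `F^p`; the
  polarization `S` in the flat basis; the monodromy group, which consists of integral matrices, preserves the polarization, and
  is Zariski dense in the Galois group of the connection, as it is for all connections with regular singularities (Schlesinger);
  at every point there is a unitary basis `Z_b` (for the Hodge metric) of elements of the spaces `H^(p_b, w - p_b)`: it lies in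
  `F^(p_b)`, the conjugate of `Z_b` is in `H^(w - p_b, p_b)`, and `S(Z_a, conj Z_b) = i^(w - 2 p_b)` if `a = b`, and `0` if not.

For a point `s` of `U` and an integral tensor `γ` of degree `m` (an element of the `m`-th tensor power of the dual of the lattice),
`γ` is a Hodge tensor at `s` if it is orthogonal to `F^p`, `p > m w / 2`, of the tensor power (`IsHodge`). As `𝕍` is polarizable
all Hodge tensors in all tensor constructions are of this form. The point `s` is on the Hodge locus if there is a Hodge tensor at
`s` which is not a Hodge tensor at the generic point. By the theorem of the fixed part, a Hodge tensor at `s` which is fixed by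
the identity component of the Galois group (the Zariski closure of the monodromy) is a Hodge tensor at all points.

**Theorem.** There are `ω T → ∞` such that for all large `T` and all number fields `K` of degree at most `ω T` the points over `K`
of height at most `T` (in the `ω T`-th compact set), at which there is a Hodge tensor of degree at most `ω T` and of size at
most `T ^ ω T` that is not fixed by the identity component of the Galois group, lie on at most `T ^ (1 / ω T)` hypersurfaces
of degree at most `T ^ (1 / ω T)`.

So the points of `S(K)` of height at most `T` on the Hodge locus (atypical or not), of Hodge tensors of bounded complexity in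
this sense, are contained in few algebraic hypersurfaces of small degree, whereas the number of the special subvarieties of this
complexity may be as large as a power of `T`; by the conjecture of Zilber and Pink the atypical ones are on finitely many
hypersurfaces. There is no condition on the variation: the starting results treat hypergeometric variations of Calabi-Yau type
(integral points, and algebraic points near the cusp) and random families of elliptic curves.

Proof. By the theorem on relations between periods (`V11273/PV`, as in MP_77d3f5_ag.AllFamilies), the Hodge tensor `γ` at `s`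
remains a Hodge tensor at `s` after all translations by elements `g` of the identity component. For `g` in the monodromy group the
translate is integral, and its norm in the Hodge metric at `s` is the value of the polarization, which is the same for all of
them. So the orbit of `γ` is finite, its stabilizer is a closed subgroup of finite index of the Galois group, and contains the
identity component (`V11273/PV/H1`).
-/

set_option autoImplicit false

open Filter NumberField
open scoped Matrix

namespace Pool.Agent.Results.MP_0704bf_ag.HodgeLocusBoundedHeight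

/-- an algebraic connection on the affine space `ℂ ^ X` with a fundamental matrix `Y` of analytic solutions on `U` -/
structure Family (X ι : Type) [Fintype X] [DecidableEq X] [Fintype ι] [DecidableEq ι] where
  /-- a nonempty connected open set -/
  U : Set (X → ℂ)
  isOpen : IsOpen U
  connected : IsPreconnected U
  nonempty : U.Nonempty
  /-- the matrix of the solutions (periods) -/
  Y : (X → ℂ) → Matrix ι ι ℂ
  analytic : ∀ a b, AnalyticOnNhd ℂ (fun x => Y x a b) U
  det_ne : ∀ x ∈ U, (Y x).det ≠ 0
  /-- the common denominator of the connection -/
  c : MvPolynomial X ℂ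
  c_ne : c ≠ 0
  /-- the numerators -/
  B : X → Matrix ι ι (MvPolynomial X ℂ)
  /-- `c ∂_i Y = Y B_i` -/
  eqn : ∀ x ∈ U, ∀ i a b, MvPolynomial.eval x c * fderiv ℂ (fun x => Y x a b) x (Pi.single i 1) =
    ∑ e, Y x a e * MvPolynomial.eval x (B i e b)

section
variable {X ι : Type} [Fintype X] [DecidableEq X] [Fintype ι] [DecidableEq ι]

/-- all polynomial relations between the entries of `Y` over `ℂ[x]` are relations between the entries of `g Y` -/
def Preserves (F : Family X ι) (g : Matrix ι ι ℂ) : Prop :=
  ∀ p : MvPolynomial (ι × ι) (MvPolynomial X ℂ),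
    (∀ x ∈ F.U, MvPolynomial.eval₂ (MvPolynomial.eval x) (fun v => F.Y x v.1 v.2) p = 0) →
    ∀ x ∈ F.U, MvPolynomial.eval₂ (MvPolynomial.eval x) (fun v => (g * F.Y x) v.1 v.2) p = 0

/-- the Galois group -/
def Family.galois (F : Family X ι) : Subgroup (GL ι ℂ) where
  carrier := {g | Preserves F (g : Matrix ι ι ℂ)}
  mul_mem' := fun ha hb => (Pool.Agent.V11273.PV.Gal F.U F.Y).mul_mem' ha hb
  one_mem' := (Pool.Agent.V11273.PV.Gal F.U F.Y).one_mem'
  inv_mem' := fun ha => (Pool.Agent.V11273.PV.Gal F.U F.Y).inv_mem' ha

/-- the subgroup `H` of `G` is defined by polynomial equations -/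
def ClosedIn {G : Subgroup (GL ι ℂ)} (H : Subgroup G) : Prop :=
  ∃ E : Set (MvPolynomial (ι × ι) ℂ), ∀ h : G, h ∈ H ↔
    ∀ e ∈ E, MvPolynomial.eval (fun v => ((h : GL ι ℂ) : Matrix ι ι ℂ) v.1 v.2) e = 0

/-- the elements of `G` which lie in all closed subgroups of finite index of `G` -/
def identityComponent (G : Subgroup (GL ι ℂ)) : Set (GL ι ℂ) :=
  {g | ∃ hg : g ∈ G, ∀ H : Subgroup G, H.FiniteIndex → ClosedIn H → (⟨g, hg⟩ : G) ∈ H}

/-- At the point with the period matrix `Y` there is a basis `Z` adapted to the Hodge decomposition and unitary for the Hodge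
metric: `Z_b` is in `F^(p b)`, its conjugate is in the span of the `Z_a` with `p a = w - p b`, and
`S(Z_a, conj Z_b) = i ^ (w - 2 p b)` if `a = b`, and `0` if not. -/
def HasUnitaryBasis (p : ι → ℤ) (w : ℤ) (S Y : Matrix ι ι ℂ) : Prop :=
  ∃ Z T M : Matrix ι ι ℂ, Z = Y * T ∧ (∀ a b, T a b ≠ 0 → p b ≤ p a) ∧
    Z.map (starRingEnd ℂ) = Z * M ∧ (∀ a b, M a b ≠ 0 → p a + p b = w) ∧
    Zᵀ * S * Z.map (starRingEnd ℂ) = Matrix.diagonal fun b => Complex.I ^ (w - 2 * p b)

/-- a polarized variation of Hodge structure of weight `w` with flat bundle `F` -/
structure Variation (F : Family X ι) where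
  /-- the weight -/
  w : ℤ
  /-- the levels of the columns in the Hodge filtration -/
  p : ι → ℤ
  /-- the polarization in the flat basis -/
  S : Matrix ι ι ℂ
  /-- the Hodge decomposition and the positivity of the Hodge metric -/
  basis : ∀ x ∈ F.U, HasUnitaryBasis p w S (F.Y x)
  /-- the monodromy group -/
  monodromy : Subgroup (GL ι ℂ)
  le_galois : monodromy ≤ F.galois
  /-- the monodromy group is Zariski dense in the Galois group -/
  dense : ∀ P : MvPolynomial (ι × ι) ℂ,
    (∀ g ∈ monodromy, MvPolynomial.eval (fun v => (g : Matrix ι ι ℂ) v.1 v.2) P = 0) →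
    ∀ g ∈ F.galois, MvPolynomial.eval (fun v => (g : Matrix ι ι ℂ) v.1 v.2) P = 0
  /-- it consists of integral matrices -/
  integral : ∀ g ∈ monodromy, ∀ a b, ∃ n : ℤ, (g : Matrix ι ι ℂ) a b = n
  /-- it preserves the polarization -/
  preserves : ∀ g ∈ monodromy, (g : Matrix ι ι ℂ)ᵀ * S * (g : Matrix ι ι ℂ) = S

/-- the product of the tensor `γ` of degree `m` with the column `J` of the `m`-th tensor power of the matrix `Z` -/
noncomputable def times {m : ℕ} (γ : (Fin m → ι) → ℂ) (Z : Matrix ι ι ℂ) (J : Fin m → ι) : ℂ :=
  ∑ a, γ a * ∏ i, Z (a i) (J i)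

/-- `γ` is a Hodge tensor at the point `x`: it is orthogonal to the part of the Hodge filtration of the `m`-th tensor power of
level more than half of the weight -/
def IsHodge {F : Family X ι} (V : Variation F) (x : X → ℂ) {m : ℕ} (γ : (Fin m → ι) → ℂ) : Prop :=
  ∀ J : Fin m → ι, (m : ℤ) * V.w < 2 * ∑ i, V.p (J i) → times γ (F.Y x) J = 0

/-- quotients of two integers of `K`, all conjugates of which are at most `T` -/
def HeightLe (K : Type) [Field K] [NumberField K] (T : ℝ) (x : K) : Prop :=
  ∃ a b : 𝓞 K, b ≠ 0 ∧ house (a : K) ≤ T ∧ house (b : K) ≤ T ∧ x = a / b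

/-- `S` is covered by at most `m` hypersurfaces of degree at most `D` -/
def CoveredBy {X : Type} (D m : ℕ) (S : Set (X → ℂ)) : Prop :=
  ∃ Φ : Finset (MvPolynomial X ℂ), Φ.card ≤ m ∧ (∀ P ∈ Φ, P ≠ 0 ∧ P.totalDegree ≤ D) ∧
    ∀ x ∈ S, ∃ P ∈ Φ, MvPolynomial.eval x P = 0

/-- the points of norm at most `k` at distance at least `1 / k` from the complement of `U` -/
def Inner {X : Type} [Fintype X] (U : Set (X → ℂ)) (k : ℕ) : Set (X → ℂ) :=
  {z | ‖z‖ ≤ k ∧ Metric.ball z (k : ℝ)⁻¹ ⊆ U}

/-- The points `s` with coordinates in `K` of height at most `T`, in the compact set `Inner F.U k`, at which there is an integral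
Hodge tensor `γ` of degree `m ≤ k`, the sum of the absolute values of its coordinates being at most `T ^ k`, that is not fixed
by some element of the identity component of the Galois group. -/
def HodgeLocus {F : Family X ι} (V : Variation F) (K : Type) [Field K] [NumberField K] (io : K →+* ℂ) (k : ℕ) (T : ℝ) :
    Set (X → K) :=
  {s | (∀ j, HeightLe K T (s j)) ∧ (fun j => io (s j)) ∈ Inner F.U k ∧ ∃ m ≤ k, ∃ γ : (Fin m → ι) → ℤ,
    ((∑ a, |γ a| : ℤ) : ℝ) ≤ T ^ (k : ℝ) ∧ IsHodge V (fun j => io (s j)) (fun a => (γ a : ℂ)) ∧
    ∃ g ∈ identityComponent F.galois, times (fun a => (γ a : ℂ)) (g : Matrix ι ι ℂ) ≠ fun a => (γ a : ℂ)}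

/-- Let `V` be a polarized variation of Hodge structure over an open part of the affine space of dimension `d ≥ 1`. There is
`ω → ∞` such that for all large `T` and all number fields `K` of degree at most `ω T`, embedded in `ℂ`, the set of the points of
height at most `T` over `K` on the Hodge locus of the tensors of degree at most `ω T` and size at most `T ^ ω T` (the set
`HodgeLocus V K io (ω T) T`) lies on at most `T ^ (1 / ω T)` hypersurfaces of degree at most `T ^ (1 / ω T)`, and has at most
`T ^ (1 / ω T) * N ^ (d - 1)` elements, where `N` is the number of the elements of `K` of height at most `T`. -/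
theorem result [Nonempty X] (F : Family X ι) (V : Variation F) :
    ∃ (ω : ℝ → ℕ) (T₀ : ℝ), Tendsto ω atTop atTop ∧ Monotone ω ∧ ∀ T, T₀ ≤ T → 0 < ω T ∧
      ∀ (K : Type) [Field K] [NumberField K], Module.finrank ℚ K ≤ ω T → ∀ (io : K →+* ℂ),
        CoveredBy ⌊T ^ ((ω T : ℝ)⁻¹)⌋₊ ⌊T ^ ((ω T : ℝ)⁻¹)⌋₊
          ((fun (s : X → K) i => io (s i)) '' HodgeLocus V K io (ω T) T) ∧
        (HodgeLocus V K io (ω T) T).Finite ∧
        ((HodgeLocus V K io (ω T) T).ncard : ℝ) ≤
          T ^ ((ω T : ℝ)⁻¹) * ({x : K | HeightLe K T x}.ncard : ℝ) ^ (Fintype.card X - 1) :=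
  Pool.Agent.V11273.PV.main_H (U := F.U) (Y := F.Y) F.connected F.isOpen F.nonempty F.analytic F.det_ne F.c_ne F.eqn
    (Γ := V.monodromy) V.le_galois V.dense V.integral V.preserves V.basis

end

end Pool.Agent.Results.MP_0704bf_ag.HodgeLocusBoundedHeight
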