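import Pool.Agent.Helper264.NT.NearPV

/-!
# Near almost every point no algebraic point of bounded height has unexpected Hodge tensors of bounded size

A family (`Family X ι`) is an algebraic connection `c ∂_i Y = Y B_i` over the affine space with coordinates `x_i`, `i ∈ X`,
with an invertible matrix `Y` of analytic solutions on a nonempty connected open set `U`: for example a branch of the period
matrix of a family of smooth projective varieties over an open part of the affine space, rows: a basis `γ_a` of the integral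
homology (a local system), columns: algebraic forms `ω_b` which are a basis of the de Rham cohomology adapted to the Hodge
filtration, `ω_b` of level `f b`. The group `galois` of the constant matrices `g` such that all polynomial relations over `ℂ[x]`
between the entries of `Y` are relations between the entries of `g Y` is then the Zariski closure of the monodromy group.

An integral tensor `φ` in the `γ_{α 1} ⊗ ⋯ ⊗ γ_{α n}` is a Hodge tensor at `s` (in weight `m`, `2 p = m n`) if and only if it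
is orthogonal to all `ω_{β 1} ⊗ ⋯ ⊗ ω_{β n}` of level `> p`: `IsHodge`. The Hodge locus of the tensor category of the
variation is the set of the points with a Hodge tensor which is not a Hodge tensor generically.

Theorem. There is a set `E` in `ℂ^d`, `d` the number of parameters, of Hausdorff dimension at most `2 d - 2` such that for all
`z` outside of `E`, all `w > 0` (arbitrarily small), all number fields `K` and all `k`, for large `T`, at ALL points `s` with
coordinates in `K` of height at most `T` at distance at most `T ^ (-w)` from `z`: every integral Hodge tensor at `s` of order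
at most `k` and of size at most `T ^ k` remains a Hodge tensor at `s` under the identity component `G°` of the monodromy group,
and if the variation is polarized and the integral matrices are dense in the monodromy group (as they are for families of
varieties), then it is fixed by `G°`: the Mumford-Tate group of the fibre at `s`, as far as it is seen by tensors of order at
most `k` and size at most `T ^ k`, contains `G°`. By the theorem of the fixed part such a tensor is a Hodge tensor at all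
points of the base: no such `s` lies in the Hodge locus of the tensors of order `≤ k` and size `≤ T ^ k`, so on no special
subvariety (typical or atypical) of this complexity. For real `z` the same holds outside of a set in `ℝ^d` of dimension at
most `d - 1`.
-/

set_option autoImplicit false

open Filter NumberField
open scoped ENNReal

namespace Pool.Agent.Results.MP_0704bf_ag.HodgeTensorsNearEveryPoint

/-- the value at `x` and at the matrix `Z` of a polynomial in the entries of a matrix, with coefficients in `ℂ[x]` -/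
noncomputable def value {X ι : Type} (x : X → ℂ) (Z : Matrix ι ι ℂ) (p : MvPolynomial (ι × ι) (MvPolynomial X ℂ)) : ℂ :=
  MvPolynomial.eval₂ (MvPolynomial.eval x) (fun v => Z v.1 v.2) p

/-- an algebraic connection on the affine space `ℂ ^ X` with a fundamental matrix `Y` of analytic solutions on `U` -/
structure Family (X ι : Type) [Fintype X] [DecidableEq X] [Fintype ι] [DecidableEq ι] where
  /-- a nonempty connected open set -/
  U : Set (X → ℂ)
  isOpen : IsOpen U
  connected : IsPreconnected U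
  nonempty : U.Nonempty
  /-- the matrix of the solutions (periods) -/
  Y : (X → ℂ) → Matrix ι ι ℂ
  analytic : ∀ a b, AnalyticOnNhd ℂ (fun x => Y x a b) U
  det_ne : ∀ x ∈ U, (Y x).det ≠ 0
  /-- the common denominator of the connection -/
  c : MvPolynomial X ℂ
  c_ne : c ≠ 0
  /-- the numerators -/
  B : X → Matrix ι ι (MvPolynomial X ℂ)
  /-- `c ∂_i Y = Y B_i` -/
  eqn : ∀ x ∈ U, ∀ i a b, MvPolynomial.eval x c * fderiv ℂ (fun x => Y x a b) x (Pi.single i 1) =
    ∑ e, Y x a e * MvPolynomial.eval x (B i e b)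

section
variable {X ι : Type} [Fintype X] [DecidableEq X] [Fintype ι] [DecidableEq ι]

/-- all polynomial relations between the entries of `Y` over `ℂ[x]` are relations between the entries of `g Y` -/
def Preserves (F : Family X ι) (g : Matrix ι ι ℂ) : Prop :=
  ∀ p : MvPolynomial (ι × ι) (MvPolynomial X ℂ), (∀ x ∈ F.U, value x (F.Y x) p = 0) →
    ∀ x ∈ F.U, value x (g * F.Y x) p = 0

/-- the Galois group -/
def Family.galois (F : Family X ι) : Subgroup (GL ι ℂ) where
  carrier := {g | Preserves F (g : Matrix ι ι ℂ)}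
  mul_mem' := fun ha hb => (Pool.Agent.V11273.PV.Gal F.U F.Y).mul_mem' ha hb
  one_mem' := (Pool.Agent.V11273.PV.Gal F.U F.Y).one_mem'
  inv_mem' := fun ha => (Pool.Agent.V11273.PV.Gal F.U F.Y).inv_mem' ha

/-- the subgroup `H` of `G` is defined by polynomial equations -/
def ClosedIn {G : Subgroup (GL ι ℂ)} (H : Subgroup G) : Prop :=
  ∃ E : Set (MvPolynomial (ι × ι) ℂ), ∀ h : G, h ∈ H ↔
    ∀ e ∈ E, MvPolynomial.eval (fun v => ((h : GL ι ℂ) : Matrix ι ι ℂ) v.1 v.2) e = 0

/-- the elements of `G` which lie in all closed subgroups of finite index of `G` -/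
def identityComponent (G : Subgroup (GL ι ℂ)) : Set (GL ι ℂ) :=
  {g | ∃ hg : g ∈ G, ∀ H : Subgroup G, H.FiniteIndex → ClosedIn H → (⟨g, hg⟩ : G) ∈ H}

end

/-- quotients of two integers of `K`, all conjugates of which are at most `T` -/
def HeightLe (K : Type) [Field K] [NumberField K] (T : ℝ) (x : K) : Prop :=
  ∃ a b : 𝓞 K, b ≠ 0 ∧ house (a : K) ≤ T ∧ house (b : K) ≤ T ∧ x = a / b


section
variable {X ι : Type} [Fintype X] [DecidableEq X] [Fintype ι] [DecidableEq ι]

/-- The tensor `φ`, a combination of the `γ_{α 1} ⊗ ⋯ ⊗ γ_{α n}` (`γ_a`: the classes to which the rows of the period matrix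
`Z` belong), is orthogonal to all `ω_{β 1} ⊗ ⋯ ⊗ ω_{β n}` (`ω_b`: the forms to which the columns of `Z` belong) of level
`f (β 1) + ⋯ + f (β n)` greater than `p`. -/
def IsHodge {n : ℕ} (f : ι → ℤ) (p : ℤ) (Z : Matrix ι ι ℂ) (φ : (Fin n → ι) → ℂ) : Prop :=
  ∀ β : Fin n → ι, p < ∑ i, f (β i) → ∑ α : Fin n → ι, φ α * ∏ i, Z (α i) (β i) = 0

/-- the action of a matrix on tensors -/
def act {R : Type} [CommRing R] {n : ℕ} (g : Matrix ι ι R) (φ : (Fin n → ι) → R) : (Fin n → ι) → R :=
  fun a => ∑ α : Fin n → ι, φ α * ∏ i, g (α i) (a i)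

/-- the value of the `n`-th tensor power of the form with the matrix `Q` at the tensor `v` -/
def power {n : ℕ} (Q : Matrix ι ι ℝ) (v : (Fin n → ι) → ℝ) : ℝ :=
  ∑ α : Fin n → ι, ∑ α' : Fin n → ι, v α * v α' * ∏ i, Q (α i) (α' i)

/-- the invertible integral matrices as complex matrices -/
noncomputable def cx : GL ι ℤ →* GL ι ℂ := Matrix.GeneralLinearGroup.map (Int.castRingHom ℂ)

/-- A polarization of weight `m`: a real form with the matrix `Q` which is invariant under all invertible integral matrices in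
the identity component of the Galois group, such that for `2 p = m n` its `n`-th tensor power is positive at all nonzero real
tensors which are Hodge tensors of degree `p` at some point. -/
structure Polarization (F : Family X ι) (f : ι → ℤ) (m : ℤ) where
  /-- the matrix of the form -/
  Q : Matrix ι ι ℝ
  invariant : ∀ γ : GL ι ℤ, cx γ ∈ identityComponent F.galois →
    (γ : Matrix ι ι ℤ).map (fun a => (a : ℝ)) * Q * ((γ : Matrix ι ι ℤ).map (fun a => (a : ℝ))).transpose = Q
  positive : ∀ x ∈ F.U, ∀ (n : ℕ) (p : ℤ), 2 * p = m * n → ∀ v : (Fin n → ι) → ℝ, v ≠ 0 →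
    IsHodge f p (F.Y x) (fun α => (v α : ℂ)) → 0 < power Q v

/-- The invertible integral matrices in the Galois group are Zariski dense in it: a polynomial in the entries which vanishes
at all of them vanishes on the whole Galois group. -/
def IntegralDense (F : Family X ι) : Prop :=
  ∀ e : MvPolynomial (ι × ι) ℂ,
    (∀ γ : GL ι ℤ, cx γ ∈ F.galois → MvPolynomial.eval (fun v => ((cx γ : GL ι ℂ) : Matrix ι ι ℂ) v.1 v.2) e = 0) →
      ∀ g ∈ F.galois, MvPolynomial.eval (fun v => ((g : GL ι ℂ) : Matrix ι ι ℂ) v.1 v.2) e = 0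

end

section
variable {X ι : Type} [Fintype X] [DecidableEq X] [Fintype ι] [DecidableEq ι]

/-- the polynomial which expresses the pairing of the tensor with `ω_{β 1} ⊗ ⋯ ⊗ ω_{β n}` -/
noncomputable def poly {n : ℕ} (φ : (Fin n → ι) → ℤ) (β : Fin n → ι) : MvPolynomial (ι × ι) ℂ :=
  ∑ α : Fin n → ι, MvPolynomial.C (φ α : ℂ) * ∏ i, MvPolynomial.X (α i, β i)

lemma poly_eval {n : ℕ} (φ : (Fin n → ι) → ℤ) (β : Fin n → ι) (Z : Matrix ι ι ℂ) :
    MvPolynomial.eval (fun v => Z v.1 v.2) (poly φ β) = ∑ α : Fin n → ι, (φ α : ℂ) * ∏ i, Z (α i) (β i) := by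
  rw [poly, map_sum]
  refine Finset.sum_congr rfl fun α _ => ?_
  rw [map_mul, MvPolynomial.eval_C, map_prod]
  simp only [MvPolynomial.eval_X]

lemma poly_deg {n : ℕ} (φ : (Fin n → ι) → ℤ) (β : Fin n → ι) (y : ι × ι) : (poly φ β).degreeOf y ≤ n := by
  classical
  refine (MvPolynomial.degreeOf_sum_le y Finset.univ _).trans (Finset.sup_le fun α _ => ?_)
  refine (MvPolynomial.degreeOf_C_mul_le _ y _).trans ?_
  refine (MvPolynomial.degreeOf_prod_le y Finset.univ _).trans ?_
  calc ∑ i : Fin n, MvPolynomial.degreeOf y (MvPolynomial.X (R := ℂ) (α i, β i)) ≤ ∑ i : Fin n, 1 := by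
        refine Finset.sum_le_sum fun i _ => ?_
        rw [MvPolynomial.degreeOf_X]
        split_ifs <;> omega
    _ = n := by simp

/-- the exponents of the monomials -/
noncomputable def expo {n : ℕ} (α β : Fin n → ι) : (ι × ι) →₀ ℕ := ∑ i, Finsupp.single (α i, β i) 1

lemma poly_coeff {n : ℕ} (φ : (Fin n → ι) → ℤ) (β : Fin n → ι) (m : (ι × ι) →₀ ℕ) :
    (poly φ β).coeff m = ((∑ α : Fin n → ι, if expo α β = m then φ α else 0 : ℤ) : ℂ) := by
  classical
  rw [poly, MvPolynomial.coeff_sum, Int.cast_sum]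
  refine Finset.sum_congr rfl fun α _ => ?_
  have h1 : (∏ i, MvPolynomial.X (α i, β i) : MvPolynomial (ι × ι) ℂ) = MvPolynomial.monomial (expo α β) 1 := by
    rw [expo, MvPolynomial.monomial_sum_one]
    rfl
  rw [MvPolynomial.coeff_C_mul, h1, MvPolynomial.coeff_monomial]
  split_ifs <;> simp

end

section
variable {X ι : Type} [Fintype X] [DecidableEq X] [Fintype ι] [DecidableEq ι]

lemma power_act {n : ℕ} (Q g : Matrix ι ι ℝ) (hg : g * Q * g.transpose = Q) (v : (Fin n → ι) → ℝ) :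
    power Q (act g v) = power Q v := by
  classical
  have key : ∀ α α' : Fin n → ι, ∑ a : Fin n → ι, ∑ a' : Fin n → ι,
      ((∏ i, g (α i) (a i)) * (∏ i, g (α' i) (a' i)) * ∏ i, Q (a i) (a' i)) = ∏ i, Q (α i) (α' i) := by
    intro α α'
    have h1 : ∀ i, Q (α i) (α' i) = ∑ a, ∑ a', g (α i) a * g (α' i) a' * Q a a' := by
      intro i
      conv_lhs => rw [← hg]
      simp only [Matrix.mul_apply, Matrix.transpose_apply, Finset.sum_mul]
      rw [Finset.sum_comm]
      refine Finset.sum_congr rfl fun a _ => Finset.sum_congr rfl fun a' _ => ?_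
      ring
    calc _ = ∑ a : Fin n → ι, ∏ i, ∑ a', g (α i) (a i) * g (α' i) a' * Q (a i) a' := by
          refine Finset.sum_congr rfl fun a _ => ?_
          rw [Finset.prod_univ_sum, Fintype.piFinset_univ]
          refine Finset.sum_congr rfl fun a' _ => ?_
          rw [Finset.prod_mul_distrib, Finset.prod_mul_distrib]
      _ = ∏ i, ∑ a, ∑ a', g (α i) a * g (α' i) a' * Q a a' := by
          rw [Finset.prod_univ_sum, Fintype.piFinset_univ]
      _ = _ := Finset.prod_congr rfl fun i _ => (h1 i).symm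
  unfold power act
  calc ∑ a : Fin n → ι, ∑ a' : Fin n → ι, (∑ α : Fin n → ι, v α * ∏ i, g (α i) (a i)) *
        (∑ α' : Fin n → ι, v α' * ∏ i, g (α' i) (a' i)) * ∏ i, Q (a i) (a' i)
      = ∑ a : Fin n → ι, ∑ a' : Fin n → ι, ∑ α : Fin n → ι, ∑ α' : Fin n → ι,
          v α * v α' * ((∏ i, g (α i) (a i)) * (∏ i, g (α' i) (a' i)) * ∏ i, Q (a i) (a' i)) := by
        refine Finset.sum_congr rfl fun a _ => Finset.sum_congr rfl fun a' _ => ?_
        rw [Finset.sum_mul_sum, Finset.sum_mul]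
        refine Finset.sum_congr rfl fun α _ => ?_
        rw [Finset.sum_mul]
        refine Finset.sum_congr rfl fun α' _ => ?_
        ring
    _ = ∑ α : Fin n → ι, ∑ a : Fin n → ι, ∑ a' : Fin n → ι, ∑ α' : Fin n → ι,
          v α * v α' * ((∏ i, g (α i) (a i)) * (∏ i, g (α' i) (a' i)) * ∏ i, Q (a i) (a' i)) := by
        rw [Finset.sum_comm]
        rw [Finset.sum_congr rfl fun a _ => Finset.sum_comm]
        rw [Finset.sum_comm]
        refine Finset.sum_congr rfl fun α _ => ?_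
        rw [Finset.sum_comm]
    _ = ∑ α : Fin n → ι, ∑ α' : Fin n → ι, ∑ a : Fin n → ι, ∑ a' : Fin n → ι,
          v α * v α' * ((∏ i, g (α i) (a i)) * (∏ i, g (α' i) (a' i)) * ∏ i, Q (a i) (a' i)) := by
        refine Finset.sum_congr rfl fun α _ => ?_
        rw [Finset.sum_congr rfl fun a _ => Finset.sum_comm]
        rw [Finset.sum_comm]
    _ = _ := by
        refine Finset.sum_congr rfl fun α _ => Finset.sum_congr rfl fun α' _ => ?_
        rw [← key α α', Finset.mul_sum]
        refine Finset.sum_congr rfl fun a _ => ?_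
        rw [Finset.mul_sum]

lemma isHodge_act {n : ℕ} {f : ι → ℤ} {p : ℤ} {g Z : Matrix ι ι ℂ} {φ : (Fin n → ι) → ℂ}
    (h : IsHodge f p (g * Z) φ) : IsHodge f p Z (act g φ) := by
  classical
  intro β hβ
  rw [← h β hβ]
  unfold act
  calc ∑ a : Fin n → ι, (∑ α : Fin n → ι, φ α * ∏ i, g (α i) (a i)) * ∏ i, Z (a i) (β i)
      = ∑ a : Fin n → ι, ∑ α : Fin n → ι, φ α * ∏ i, (g (α i) (a i) * Z (a i) (β i)) := by
        refine Finset.sum_congr rfl fun a _ => ?_
        rw [Finset.sum_mul]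
        refine Finset.sum_congr rfl fun α _ => ?_
        rw [Finset.prod_mul_distrib]
        ring
    _ = ∑ α : Fin n → ι, φ α * ∏ i, (g * Z) (α i) (β i) := by
        rw [Finset.sum_comm]
        refine Finset.sum_congr rfl fun α _ => ?_
        rw [← Finset.mul_sum]
        congr 1
        simp only [Matrix.mul_apply]
        rw [Finset.prod_univ_sum, Fintype.piFinset_univ]

lemma finite_of_pos {κ : Type} [Fintype κ] (W : Submodule ℝ (κ → ℝ)) (q : (κ → ℝ) → ℝ) (hq : Continuous q)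
    (hs : ∀ (c : ℝ) v, q (c • v) = c ^ 2 * q v) (hpos : ∀ v ∈ W, v ≠ 0 → 0 < q v) (c : ℝ) :
    {φ : κ → ℤ | (fun i => (φ i : ℝ)) ∈ W ∧ q (fun i => (φ i : ℝ)) ≤ c}.Finite := by
  classical
  obtain ⟨R, hR⟩ : ∃ R : ℝ, ∀ v ∈ W, q v ≤ c → ‖v‖ ≤ R := by
    set S : Set (κ → ℝ) := (W : Set (κ → ℝ)) ∩ Metric.sphere 0 1 with hS
    have hSc : IsCompact S := (isCompact_sphere 0 1).inter_left W.closed_of_finiteDimensional
    rcases S.eq_empty_or_nonempty with h0 | h0
    · refine ⟨0, fun v hv _ => ?_⟩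
      by_contra hne
      rw [not_le] at hne
      have h1 : (‖v‖⁻¹ • v) ∈ S := ⟨W.smul_mem _ hv, by simp [norm_smul, hne.ne']⟩
      rw [h0] at h1
      exact h1
    · obtain ⟨u, hu, hmin⟩ := hSc.exists_isMinOn h0 hq.continuousOn
      have hu0 : u ≠ 0 := by
        rintro rfl
        simpa using hu.2
      have hm : 0 < q u := hpos u hu.1 hu0
      refine ⟨Real.sqrt (max c 0 / q u), fun v hv hvc => ?_⟩
      by_cases hv0 : v = 0
      · subst hv0
        rw [norm_zero]
        positivity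
      have hn : 0 < ‖v‖ := norm_pos_iff.2 hv0
      have h1 : q u ≤ q (‖v‖⁻¹ • v) := hmin (show (‖v‖⁻¹ • v) ∈ S from ⟨W.smul_mem _ hv, by simp [norm_smul, hn.ne']⟩)
      rw [hs] at h1
      have h2 : q u * ‖v‖ ^ 2 ≤ q v := by
        calc q u * ‖v‖ ^ 2 ≤ (‖v‖⁻¹ ^ 2 * q v) * ‖v‖ ^ 2 := mul_le_mul_of_nonneg_right h1 (by positivity)
          _ = q v := by
            field_simp
      rw [Real.le_sqrt' hn, le_div_iff₀ hm, mul_comm]
      exact h2.trans (hvc.trans (le_max_left _ _))
  refine Set.Finite.subset (Set.Finite.pi' fun _ => Set.finite_Icc (-⌈R⌉) ⌈R⌉) ?_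
  rintro φ ⟨h1, h2⟩ i
  have h3 := hR _ h1 h2
  have h4 := (norm_le_pi_norm (fun i => (φ i : ℝ)) i).trans h3
  rw [Real.norm_eq_abs, abs_le] at h4
  have h5 : (R : ℝ) ≤ ⌈R⌉ := Int.le_ceil R
  constructor
  · have h6 : ((-⌈R⌉ : ℤ) : ℝ) ≤ φ i := by
      push_cast
      linarith [h4.1]
    exact_mod_cast h6
  · have h6 : (φ i : ℝ) ≤ (⌈R⌉ : ℤ) := h4.2.trans h5
    exact_mod_cast h6

lemma power_cont {n : ℕ} (Q : Matrix ι ι ℝ) : Continuous (power (n := n) Q) := by
  unfold power
  fun_prop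

lemma power_smul {n : ℕ} (Q : Matrix ι ι ℝ) (c : ℝ) (v : (Fin n → ι) → ℝ) : power Q (c • v) = c ^ 2 * power Q v := by
  unfold power
  rw [Finset.mul_sum]
  refine Finset.sum_congr rfl fun α _ => ?_
  rw [Finset.mul_sum]
  refine Finset.sum_congr rfl fun α' _ => ?_
  simp only [Pi.smul_apply, smul_eq_mul]
  ring

/-- the real Hodge tensors -/
def hodgeSpace {n : ℕ} (f : ι → ℤ) (p : ℤ) (Z : Matrix ι ι ℂ) : Submodule ℝ ((Fin n → ι) → ℝ) where
  carrier := {v | IsHodge f p Z fun α => (v α : ℂ)}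
  add_mem' := by
    intro a b ha hb β hβ
    have h1 := ha β hβ
    have h2 := hb β hβ
    simp only [Pi.add_apply, Complex.ofReal_add, add_mul, Finset.sum_add_distrib]
    rw [h1, h2, add_zero]
  zero_mem' := by
    intro β hβ
    simp
  smul_mem' := by
    intro c a ha β hβ
    have h1 := ha β hβ
    simp only [Pi.smul_apply, smul_eq_mul, Complex.ofReal_mul, mul_assoc, ← Finset.mul_sum]
    rw [h1, mul_zero]

lemma act_cast {n : ℕ} (γ : Matrix ι ι ℤ) (φ : (Fin n → ι) → ℤ) :
    (fun α => ((act γ φ α : ℤ) : ℝ)) = act (γ.map fun a => (a : ℝ)) (fun α => (φ α : ℝ)) := by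
  funext a
  unfold act
  push_cast
  rfl

lemma act_cast' {n : ℕ} (γ : Matrix ι ι ℤ) (φ : (Fin n → ι) → ℤ) :
    (fun α => ((act γ φ α : ℤ) : ℂ)) = act (γ.map fun a => (a : ℂ)) (fun α => (φ α : ℂ)) := by
  funext a
  unfold act
  push_cast
  rfl

lemma orbit_finite (F : Family X ι) (f : ι → ℤ) (m p : ℤ) (Pol : Polarization F f m) {n : ℕ} (hp : 2 * p = m * n)
    (φ : (Fin n → ι) → ℤ) {x : X → ℂ} (hx : x ∈ F.U)
    (h : ∀ g ∈ identityComponent F.galois, IsHodge f p ((g : Matrix ι ι ℂ) * F.Y x) (fun α => (φ α : ℂ))) :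
    {ψ | ∃ γ : GL ι ℤ, cx γ ∈ identityComponent F.galois ∧ ψ = act (γ : Matrix ι ι ℤ) φ}.Finite := by
  refine (finite_of_pos (hodgeSpace (n := n) f p (F.Y x)) (power Pol.Q) (power_cont _) (power_smul _)
    (fun v hv hv0 => Pol.positive x hx n p hp v hv0 hv) (power Pol.Q fun α => (φ α : ℝ))).subset ?_
  rintro _ ⟨γ, hγ, rfl⟩
  constructor
  · change IsHodge f p (F.Y x) fun α => (((act (γ : Matrix ι ι ℤ) φ α : ℤ) : ℝ) : ℂ)
    have h1 := isHodge_act (h _ hγ)
    have h2 : ((cx γ : GL ι ℂ) : Matrix ι ι ℂ) = (γ : Matrix ι ι ℤ).map (fun a => (a : ℂ)) := rfl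
    rw [h2, ← act_cast'] at h1
    simpa using h1
  · rw [act_cast, power_act _ _ (Pol.invariant γ hγ)]

lemma act_mul {n : ℕ} (g h : Matrix ι ι ℂ) (φ : (Fin n → ι) → ℂ) : act (g * h) φ = act h (act g φ) := by
  funext a
  unfold act
  calc ∑ α : Fin n → ι, φ α * ∏ i, (g * h) (α i) (a i)
      = ∑ α : Fin n → ι, ∑ b : Fin n → ι, φ α * ∏ i, (g (α i) (b i) * h (b i) (a i)) := by
        refine Finset.sum_congr rfl fun α _ => ?_
        rw [← Finset.mul_sum]
        congr 1
        simp only [Matrix.mul_apply]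
        rw [Finset.prod_univ_sum, Fintype.piFinset_univ]
    _ = _ := by
        rw [Finset.sum_comm]
        refine Finset.sum_congr rfl fun b _ => ?_
        rw [Finset.sum_mul]
        refine Finset.sum_congr rfl fun α _ => ?_
        rw [Finset.prod_mul_distrib]
        ring

lemma act_one {n : ℕ} (φ : (Fin n → ι) → ℂ) : act (1 : Matrix ι ι ℂ) φ = φ := by
  funext a
  unfold act
  rw [Finset.sum_eq_single a]
  · simp
  · intro α _ hα
    obtain ⟨i, hi⟩ := Function.ne_iff.1 hα
    have h1 : ∏ i, (1 : Matrix ι ι ℂ) (α i) (a i) = 0 :=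
      Finset.prod_eq_zero (Finset.mem_univ i) (Matrix.one_apply_ne hi)
    rw [h1, mul_zero]
  · intro h
    exact absurd (Finset.mem_univ a) h

/-- the identity component has finite index -/
lemma exists_min (G : Subgroup (GL ι ℂ)) : ∃ H0 : Subgroup G, H0.FiniteIndex ∧
    ∀ H : Subgroup G, H.FiniteIndex → ClosedIn H → H0 ≤ H := by
  classical
  let I : Subgroup G → Ideal (MvPolynomial (ι × ι) ℂ) := fun H =>
    { carrier := {e | ∀ h ∈ H, MvPolynomial.eval (fun v => ((h : GL ι ℂ) : Matrix ι ι ℂ) v.1 v.2) e = 0}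
      add_mem' := fun {a b} ha hb h hh => by rw [map_add, ha h hh, hb h hh, add_zero]
      zero_mem' := fun h hh => map_zero _
      smul_mem' := fun c a ha h hh => by rw [smul_eq_mul, map_mul, ha h hh, mul_zero] }
  let S : Set (Ideal (MvPolynomial (ι × ι) ℂ)) := {J | ∃ H : Subgroup G, H.FiniteIndex ∧ ClosedIn H ∧ J = I H}
  have hne : S.Nonempty := ⟨I ⊤, ⊤, inferInstance, ⟨∅, fun h => ⟨fun _ e he => absurd he (Set.notMem_empty e),
    fun _ => Subgroup.mem_top h⟩⟩, rfl⟩
  obtain ⟨J, ⟨H0, hf, hc, rfl⟩, hmax⟩ := set_has_maximal_iff_noetherian.2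
    (inferInstance : IsNoetherian (MvPolynomial (ι × ι) ℂ) (MvPolynomial (ι × ι) ℂ)) S hne
  refine ⟨H0, hf, fun H hHf hHc => ?_⟩
  obtain ⟨E0, hE0⟩ := hc
  obtain ⟨E1, hE1⟩ := hHc
  have hcl : ∀ h : G, h ∈ H0 ⊓ H ↔ ∀ e ∈ E0 ∪ E1,
      MvPolynomial.eval (fun v => ((h : GL ι ℂ) : Matrix ι ι ℂ) v.1 v.2) e = 0 := by
    intro h
    rw [Subgroup.mem_inf, hE0, hE1]
    constructor
    · rintro ⟨h1, h2⟩ e (he | he)
      · exact h1 e he
      · exact h2 e he
    · intro h1
      exact ⟨fun e he => h1 e (Or.inl he), fun e he => h1 e (Or.inr he)⟩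
  have hmem : I (H0 ⊓ H) ∈ S := ⟨H0 ⊓ H, inferInstance, ⟨E0 ∪ E1, hcl⟩, rfl⟩
  have hle : I H0 ≤ I (H0 ⊓ H) := fun e he h hh => he h (Subgroup.mem_inf.1 hh).1
  have hnlt := hmax _ hmem
  have hge : I (H0 ⊓ H) ≤ I H0 := by
    by_contra h
    exact hnlt (lt_of_le_not_ge hle h)
  intro h hh
  have h1 : h ∈ H0 ⊓ H := (hcl h).2 fun e he => hge (fun k hk => (hcl k).1 hk e he) h hh
  exact (Subgroup.mem_inf.1 h1).2

lemma fixed (F : Family X ι) (hd : IntegralDense F) {n : ℕ} (φ : (Fin n → ι) → ℤ)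
    (hfin : {ψ | ∃ γ : GL ι ℤ, cx γ ∈ identityComponent F.galois ∧ ψ = act (γ : Matrix ι ι ℤ) φ}.Finite) :
    ∀ g ∈ identityComponent F.galois,
      act (g : Matrix ι ι ℂ) (fun α => (φ α : ℂ)) = fun α => (φ α : ℂ) := by
  classical
  set Φ : (Fin n → ι) → ℂ := fun α => (φ α : ℂ) with hΦ
  have hS0 : {ψ | ∃ γ : GL ι ℤ, cx γ ∈ identityComponent F.galois ∧
      ψ = act ((cx γ : GL ι ℂ) : Matrix ι ι ℂ) Φ}.Finite := by
    refine (hfin.image fun ψ α => (ψ α : ℂ)).subset ?_
    rintro _ ⟨γ, hγ, rfl⟩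
    exact ⟨_, ⟨γ, hγ, rfl⟩, act_cast' _ _⟩
  obtain ⟨H0, hf, hmin⟩ := exists_min F.galois
  have hid : ∀ (g : GL ι ℂ) (hg : g ∈ F.galois), (⟨g, hg⟩ : F.galois) ∈ H0 → g ∈ identityComponent F.galois :=
    fun g hg hg0 => ⟨hg, fun H h1 h2 => hmin H h1 h2 hg0⟩
  have hS : {ψ | ∃ γ : GL ι ℤ, cx γ ∈ F.galois ∧ ψ = act ((cx γ : GL ι ℂ) : Matrix ι ι ℂ) Φ}.Finite := by
    have hex : ∀ c : F.galois ⧸ H0, ∃ ρ : GL ι ℤ,
        (∃ γ : GL ι ℤ, ∃ hγ : cx γ ∈ F.galois, (QuotientGroup.mk ((⟨cx γ, hγ⟩ : F.galois)⁻¹) : F.galois ⧸ H0) = c) →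
        ∃ hρ : cx ρ ∈ F.galois, (QuotientGroup.mk ((⟨cx ρ, hρ⟩ : F.galois)⁻¹) : F.galois ⧸ H0) = c := by
      intro c
      by_cases h : ∃ γ : GL ι ℤ, ∃ hγ : cx γ ∈ F.galois,
          (QuotientGroup.mk ((⟨cx γ, hγ⟩ : F.galois)⁻¹) : F.galois ⧸ H0) = c
      · obtain ⟨γ, h1⟩ := h
        exact ⟨γ, fun _ => h1⟩
      · exact ⟨1, fun h1 => absurd h1 h⟩
    choose r hr using hex
    have : Finite (F.galois ⧸ H0) := Subgroup.finite_quotient_of_finiteIndex
    refine (Set.finite_iUnion fun c : F.galois ⧸ H0 =>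
      hS0.image (act ((cx (r c) : GL ι ℂ) : Matrix ι ι ℂ))).subset ?_
    rintro _ ⟨γ, hγ, rfl⟩
    set c : F.galois ⧸ H0 := QuotientGroup.mk ((⟨cx γ, hγ⟩ : F.galois)⁻¹) with hc
    obtain ⟨hρ, h2⟩ := hr c ⟨γ, hγ, rfl⟩
    have h3 : (((⟨cx γ, hγ⟩ : F.galois)⁻¹)⁻¹ * (⟨cx (r c), hρ⟩ : F.galois)⁻¹) ∈ H0 :=
      QuotientGroup.eq.1 (hc.symm.trans h2.symm)
    rw [inv_inv] at h3
    have h4 : cx (γ * (r c)⁻¹) ∈ identityComponent F.galois := by
      rw [map_mul, map_inv]
      exact hid _ (F.galois.mul_mem hγ (F.galois.inv_mem hρ)) h3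
    refine Set.mem_iUnion.2 ⟨c, ⟨act ((cx (γ * (r c)⁻¹) : GL ι ℂ) : Matrix ι ι ℂ) Φ, ⟨_, h4, rfl⟩, ?_⟩⟩
    rw [← act_mul, ← Units.val_mul, ← map_mul, inv_mul_cancel_right]
  have hall : ∀ g ∈ F.galois, act ((g : GL ι ℂ) : Matrix ι ι ℂ) Φ ∈
      {ψ | ∃ γ : GL ι ℤ, cx γ ∈ F.galois ∧ ψ = act ((cx γ : GL ι ℂ) : Matrix ι ι ℂ) Φ} := by
    intro g hg
    by_contra hne
    have h1 : ∀ ψ : hS.toFinset, ∃ a, act (g : Matrix ι ι ℂ) Φ a ≠ ψ.1 a := by
      intro ψ
      by_contra h2
      push Not at h2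
      apply hne
      rw [funext h2]
      exact hS.mem_toFinset.1 ψ.2
    choose a ha using h1
    have h3 := hd (∏ ψ : hS.toFinset, (poly φ (a ψ) - MvPolynomial.C (ψ.1 (a ψ)))) (fun γ hγ => ?_) g hg
    · rw [map_prod, Finset.prod_eq_zero_iff] at h3
      obtain ⟨ψ, _, h4⟩ := h3
      rw [map_sub, poly_eval, MvPolynomial.eval_C, sub_eq_zero] at h4
      exact ha ψ h4
    · rw [map_prod]
      have h5 : act ((cx γ : GL ι ℂ) : Matrix ι ι ℂ) Φ ∈ hS.toFinset := hS.mem_toFinset.2 ⟨γ, hγ, rfl⟩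
      refine Finset.prod_eq_zero (Finset.mem_univ ⟨_, h5⟩) ?_
      rw [map_sub, poly_eval, MvPolynomial.eval_C]
      exact sub_self _
  let St : Subgroup F.galois :=
    { carrier := {g | act ((g : GL ι ℂ) : Matrix ι ι ℂ) Φ = Φ}
      mul_mem' := fun {a b} ha hb => by
        change act (((a * b : F.galois) : GL ι ℂ) : Matrix ι ι ℂ) Φ = Φ
        rw [Subgroup.coe_mul, Units.val_mul, act_mul, ha, hb]
      one_mem' := by
        change act (((1 : F.galois) : GL ι ℂ) : Matrix ι ι ℂ) Φ = Φ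
        rw [Subgroup.coe_one, Units.val_one, act_one]
      inv_mem' := fun {a} ha => by
        change act (((a⁻¹ : F.galois) : GL ι ℂ) : Matrix ι ι ℂ) Φ = Φ
        have h1 : act (((a : F.galois) : GL ι ℂ) : Matrix ι ι ℂ) Φ = Φ := ha
        conv_lhs => rw [← h1]
        rw [← act_mul, ← Units.val_mul, ← Subgroup.coe_mul, mul_inv_cancel, Subgroup.coe_one, Units.val_one, act_one] }
  have hStc : ClosedIn St := by
    refine ⟨Set.range fun a => poly φ a - MvPolynomial.C (Φ a), fun h => ⟨fun hh => ?_, fun hh => ?_⟩⟩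
    · rintro _ ⟨a, rfl⟩
      have h1 : act ((h : GL ι ℂ) : Matrix ι ι ℂ) Φ = Φ := hh
      rw [map_sub, poly_eval, MvPolynomial.eval_C, sub_eq_zero]
      exact congrFun h1 a
    · change act ((h : GL ι ℂ) : Matrix ι ι ℂ) Φ = Φ
      funext a
      have h1 := hh _ ⟨a, rfl⟩
      rw [map_sub, poly_eval, MvPolynomial.eval_C, sub_eq_zero] at h1
      exact h1
  have hStf : St.FiniteIndex := by
    have := hS.to_subtype
    have : Finite (F.galois ⧸ St) := by
      refine Finite.of_injective (fun q : F.galois ⧸ St =>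
        (⟨act ((((Quotient.out q)⁻¹ : F.galois) : GL ι ℂ) : Matrix ι ι ℂ) Φ, hall _ ((Quotient.out q)⁻¹ : F.galois).2⟩ :
          {ψ | ∃ γ : GL ι ℤ, cx γ ∈ F.galois ∧ ψ = act ((cx γ : GL ι ℂ) : Matrix ι ι ℂ) Φ})) ?_
      intro q q' h
      have h1 : act ((((Quotient.out q)⁻¹ : F.galois) : GL ι ℂ) : Matrix ι ι ℂ) Φ =
          act ((((Quotient.out q')⁻¹ : F.galois) : GL ι ℂ) : Matrix ι ι ℂ) Φ := congrArg Subtype.val h
      have h2 : (Quotient.out q)⁻¹ * Quotient.out q' ∈ St := by
        change act ((((Quotient.out q)⁻¹ * Quotient.out q' : F.galois) : GL ι ℂ) : Matrix ι ι ℂ) Φ = Φ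
        rw [Subgroup.coe_mul, Units.val_mul, act_mul, h1, ← act_mul, ← Units.val_mul, ← Subgroup.coe_mul,
          inv_mul_cancel, Subgroup.coe_one, Units.val_one, act_one]
      have h3 : (QuotientGroup.mk (Quotient.out q) : F.galois ⧸ St) = QuotientGroup.mk (Quotient.out q') :=
        QuotientGroup.eq.2 h2
      rwa [QuotientGroup.out_eq', QuotientGroup.out_eq'] at h3
    exact Subgroup.finiteIndex_of_finite_quotient
  intro g hg
  obtain ⟨hg1, hg2⟩ := hg
  exact hg2 St hStf hStc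

end

section
variable {X ι : Type} [Fintype X] [DecidableEq X] [Fintype ι] [DecidableEq ι]

/-- At all tuples `s` with coordinates in the number field `K` (embedded into `ℂ` by `io`) of height at most `T` and with
`|s i - z i| ≤ T ^ (-w)` for all `i`: let `φ` be an integral tensor of order `n ≤ k` with coefficients of absolute value at
most `T ^ k` which is a Hodge tensor of degree `p` at `s`, with respect to any levels `f` of the columns. Then `φ` is
orthogonal to the same products of columns of `g Y(s)` for all `g` in the identity component of the Galois group. If the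
integral matrices are dense in the Galois group and there is a polarization of weight `m`, `2 p = m n`, then `φ` is fixed by
the identity component of the Galois group. -/
def GoodNear (F : Family X ι) (z : X → ℂ) (w : ℝ) (K : Type) [Field K] [NumberField K] (io : K →+* ℂ) (k : ℕ) (T : ℝ) :
    Prop :=
  ∀ s : X → K, (∀ i, HeightLe K T (s i)) → (∀ i, ‖io (s i) - z i‖ ≤ T ^ (-w)) →
    ∀ (n : ℕ) (f : ι → ℤ) (p : ℤ) (φ : (Fin n → ι) → ℤ), n ≤ k → (∀ α, |(φ α : ℝ)| ≤ T ^ (k : ℝ)) →
      IsHodge f p (F.Y fun i => io (s i)) (fun α => (φ α : ℂ)) →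
      (∀ g ∈ identityComponent F.galois,
        IsHodge f p ((g : Matrix ι ι ℂ) * F.Y fun i => io (s i)) (fun α => (φ α : ℂ))) ∧
      (IntegralDense F → ∀ (m : ℤ) (_ : Polarization F f m), 2 * p = m * n →
        ∀ g ∈ identityComponent F.galois, act (g : Matrix ι ι ℂ) (fun α => (φ α : ℂ)) = fun α => (φ α : ℂ))

lemma covers [Nonempty X] (F : Family X ι) :
    Pool.Agent.Helper264.NT.FixCov F.U (fun (v : ι × ι) x => F.Y x v.1 v.2) (Pool.Agent.V11273.PV.BadC F.U F.Y) := by
  intro k m ε hk hε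
  obtain ⟨D, C, T₀, hC, hT₀, H⟩ := Pool.Agent.V11273.PV.excI_cov F.connected F.isOpen F.nonempty F.analytic F.det_ne
    F.c_ne F.eqn (Pool.Agent.Y890.MV.InnerM F.U k) (Pool.Agent.Y890.MV.innerM_compact _ _)
    (Pool.Agent.Y890.MV.innerM_sub _ hk) k (Fin k) m (k : ℝ) ε hε
  exact ⟨D, C, T₀, hC, hT₀, fun K _ _ hK io ξ T hT => (H K hK io ξ T hT).mono le_rfl le_rfl
    (Set.image_mono (Pool.Agent.V11273.PV.excC_sub (U := F.U) (Y := F.Y) io ξ (T := T)))⟩

lemma good_of (F : Family X ι) {z : X → ℂ} {w : ℝ} {K : Type} [Field K] [NumberField K] {io : K →+* ℂ} {k : ℕ} {T : ℝ}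
    (hT1 : 1 ≤ T) (hT : ((Fintype.card ι + 1 : ℕ) : ℝ) ^ k ≤ T)
    (hU : ∀ s : X → K, (∀ i, ‖io (s i) - z i‖ ≤ T ^ (-w)) → (fun i => io (s i)) ∈ F.U)
    (h : ∀ s : X → K, (∀ i, Y120.HtLe K T (s i)) →
      (∀ i, ‖io (s i) - z i‖ ≤ T ^ (-w)) → ∀ P : MvPolynomial (ι × ι) ℂ,
        Pool.Agent.V11273.PV.Small K io (k + 1) (Pool.Agent.H107.Per.res (fun _ => 1) (k + 1)) T P →
        MvPolynomial.eval (fun y : ι × ι => F.Y (fun j => io (s j)) y.1 y.2) P = 0 →
          ¬ Pool.Agent.V11273.PV.BadC F.U F.Y (fun j => io (s j)) P) :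
    GoodNear F z w K io k T := by
  classical
  intro s hs hz n f p φ hn hφ hH
  have hTp : 0 ≤ T ^ ((k + 1 : ℕ) : ℝ) := Real.rpow_nonneg (by linarith) _
  have hTk : 0 ≤ T ^ (k : ℝ) := Real.rpow_nonneg (by linarith) _
  have hstay : ∀ g ∈ identityComponent F.galois,
      IsHodge f p ((g : Matrix ι ι ℂ) * F.Y fun i => io (s i)) (fun α => (φ α : ℂ)) := by
    intro g hg β hβ
    have hzero : MvPolynomial.eval (fun y : ι × ι => F.Y (fun j => io (s j)) y.1 y.2) (poly φ β) = 0 := by
      rw [poly_eval]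
      exact hH β hβ
    have hsmall : Pool.Agent.V11273.PV.Small K io (k + 1) (Pool.Agent.H107.Per.res (fun _ => 1) (k + 1)) T
        (poly φ β) := by
      refine ⟨fun y => (poly_deg φ β y).trans (by omega), fun e => ?_⟩
      set c : ℤ := ∑ α : Fin n → ι, if expo α β = e then φ α else 0 with hc
      have hcb : |(c : ℝ)| ≤ T ^ ((k + 1 : ℕ) : ℝ) := by
        have h1 : |(c : ℝ)| ≤ ∑ α : Fin n → ι, T ^ (k : ℝ) := by
          rw [hc, Int.cast_sum]
          refine (Finset.abs_sum_le_sum_abs _ _).trans (Finset.sum_le_sum fun α _ => ?_)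
          split_ifs
          · exact hφ α
          · simpa using hTk
        refine h1.trans ?_
        rw [Finset.sum_const, Finset.card_univ, Fintype.card_fun, Fintype.card_fin, nsmul_eq_mul]
        have h2 : ((Fintype.card ι ^ n : ℕ) : ℝ) ≤ T := by
          refine le_trans ?_ hT
          have h3 : Fintype.card ι ^ n ≤ (Fintype.card ι + 1) ^ k :=
            (Nat.pow_le_pow_left (Nat.le_succ _) n).trans (Nat.pow_le_pow_right (Nat.succ_pos _) hn)
          exact_mod_cast h3
        calc ((Fintype.card ι ^ n : ℕ) : ℝ) * T ^ (k : ℝ) ≤ T * T ^ (k : ℝ) := mul_le_mul_of_nonneg_right h2 hTk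
          _ = T ^ ((k + 1 : ℕ) : ℝ) := by
            push_cast
            rw [Real.rpow_add (by linarith), Real.rpow_one, mul_comm]
      refine ⟨Fin.cons (c : 𝓞 K) (fun _ => 0), fun i ψ => ?_, ?_⟩
      · refine Fin.cases ?_ (fun i => ?_) i
        · rw [Fin.cons_zero]
          have h4 : ψ (((c : ℤ) : 𝓞 K) : K) = ((c : ℝ) : ℂ) := by
            rw [RingOfIntegers.coe_eq_algebraMap, map_intCast, map_intCast]
            push_cast
            rfl
          rw [h4, Complex.norm_real]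
          exact hcb
        · rw [Fin.cons_succ]
          simpa using hTp
      · rw [Fin.sum_univ_succ]
        simp only [Fin.cons_zero, Fin.cons_succ]
        have e0 : ∀ i, Pool.Agent.H107.Per.res (fun _ => (1 : ℂ)) (k + 1) i = 1 := fun _ => rfl
        simp only [e0, one_mul]
        rw [poly_coeff, RingOfIntegers.coe_eq_algebraMap, map_intCast, map_intCast]
        simp [hc]
    have hgood := h s hs hz (poly φ β) hsmall hzero
    by_contra hne
    refine hgood ⟨g, hg, ?_⟩
    rw [poly_eval φ β ((g : Matrix ι ι ℂ) * F.Y fun i => io (s i))]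
    exact hne
  exact ⟨hstay, fun hd m Pol hp => fixed F hd φ (orbit_finite F f m p Pol hp φ (hU s hz) hstay)⟩

/-- **Theorem.** Let `F` be a family over an open subset of the space of dimension `d`.
(1) There is a set `E` in `ℂ ^ d` of Hausdorff dimension at most `2 (d - 1)` such that for all `z` in the domain outside
of `E`, all `w > 0`, all number fields `K ⊂ ℂ` and all `k`, the property `GoodNear F z w K k T` holds for all large `T`.
(2) There is a set `E` in `ℝ ^ d` of Hausdorff dimension at most `d - 1` such that for all real `z` in the domain outside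
of `E`, all `w > 0`, all number fields `K ⊂ ℝ` and all `k`, the property `GoodNear F z w K k T` holds for all large `T`. -/
theorem result [Nonempty X] (F : Family X ι) :
    (∃ E : Set (X → ℂ), dimH E ≤ ((2 * (Fintype.card X - 1) : ℕ) : ℝ≥0∞) ∧
      ∀ z ∈ F.U, z ∉ E → ∀ w : ℝ, 0 < w → ∀ (K : IntermediateField ℚ ℂ) [NumberField K], ∀ k : ℕ,
        ∀ᶠ T : ℝ in atTop, GoodNear F z w K (algebraMap K ℂ) k T) ∧
    ∃ E : Set (X → ℝ), dimH E ≤ ((Fintype.card X - 1 : ℕ) : ℝ≥0∞) ∧
      ∀ z : X → ℝ, (fun i => (z i : ℂ)) ∈ F.U → z ∉ E → ∀ w : ℝ, 0 < w →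
        ∀ (K : IntermediateField ℚ ℝ) [NumberField K], ∀ k : ℕ, ∀ᶠ T : ℝ in atTop,
          GoodNear F (fun i => (z i : ℂ)) w K (Complex.ofRealHom.comp (algebraMap K ℝ)) k T := by
  have hnear : ∀ z ∈ F.U, ∀ w : ℝ, 0 < w → ∀ (K : Type) [Field K] [NumberField K] (io : K →+* ℂ),
      ∀ᶠ T : ℝ in atTop, ∀ s : X → K, (∀ i, ‖io (s i) - z i‖ ≤ T ^ (-w)) → (fun i => io (s i)) ∈ F.U := by
    intro z hz w hw K _ _ io
    obtain ⟨δ, hδ, hball⟩ := Metric.isOpen_iff.1 F.isOpen z hz
    filter_upwards [(tendsto_rpow_neg_atTop hw).eventually (gt_mem_nhds hδ)] with T hT s hs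
    refine hball ?_
    rw [Metric.mem_ball, dist_eq_norm]
    refine lt_of_le_of_lt ?_ hT
    rw [pi_norm_le_iff_of_nonempty]
    exact hs
  constructor
  · obtain ⟨E, hE, h⟩ := Pool.Agent.Helper264.NT.near_fix (𝕜 := ℂ) (RingHom.id ℂ) (fun _ => rfl)
      (fun P hP => ⟨P, hP, le_rfl, fun x hx => by simpa [MvPolynomial.aeval_eq_eval] using hx⟩) F.isOpen (covers F)
      (fun _ => 1)
    refine ⟨E, by simpa using hE, fun z hz hzE w hw K _ k => ?_⟩
    obtain ⟨T₁, hT₁⟩ := h z hzE hz K w (k + 1) hw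
    filter_upwards [eventually_ge_atTop (1 : ℝ), eventually_ge_atTop T₁,
      eventually_ge_atTop (((Fintype.card ι + 1 : ℕ) : ℝ) ^ k), hnear z hz w hw K (algebraMap K ℂ)] with T hT1 hT hTc hTU
    exact good_of F hT1 hTc hTU fun s hs hsz P hP h0 => hT₁ T hT s hs hsz P hP h0
  · obtain ⟨E, hE, h⟩ := Pool.Agent.Helper264.NT.near_fix (𝕜 := ℝ) Complex.ofRealHom
      (fun a => (Complex.norm_real a).symm) (fun P hP => Pool.Agent.Helper264.NT.real_part P hP) F.isOpen (covers F)
      (fun _ => 1)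
    refine ⟨E, by simpa using hE, fun z hz hzE w hw K _ k => ?_⟩
    obtain ⟨T₁, hT₁⟩ := h z hzE hz K w (k + 1) hw
    filter_upwards [eventually_ge_atTop (1 : ℝ), eventually_ge_atTop T₁,
      eventually_ge_atTop (((Fintype.card ι + 1 : ℕ) : ℝ) ^ k),
      hnear _ hz w hw K (Complex.ofRealHom.comp (algebraMap K ℝ))] with T hT1 hT hTc hTU
    refine good_of F hT1 hTc hTU fun s hs hsz P hP h0 => ?_
    refine hT₁ T hT s hs (fun i => ?_) P hP h0
    have h1 := hsz i
    change ‖((s i : ℝ) : ℂ) - (z i : ℂ)‖ ≤ _ at h1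
    rwa [← Complex.ofReal_sub, Complex.norm_real] at h1

end

end Pool.Agent.Results.MP_0704bf_ag.HodgeTensorsNearEveryPoint
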