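import Pool.Agent.Y910.Z.Z3
import Pool.Agent.Y152.BD.Fam
import Pool.Agent.V11322.ZF.Core
import Pool.Agent.W282.LF.Top

/-!
# MP_0704bf_ag: no atypical Hodge locus for almost all members, over finitely generated fields, of
one-parameter families of Weierstrass families with few degenerate members

Let `K ⊂ ℂ` be a countable field and let `B_t ⊆ P^N` be a one-parameter family of projective
algebraic sets, defined by forms `G k` with coefficients in `K[t]`. For `i = 1, …, n` let `A_i`, `B_i`
be forms of degrees `4 e_i`, `6 e_i` with coefficients in `K[t]`. For every `t ∈ ℂ` we have families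
of elliptic curves

  `E_{i,t} : y² = x³ + A_i x + B_i`

over the base `S_t = {b ∈ B_t | 4 A_i (b)³ + 27 B_i (b)² ≠ 0 for all i}` and the polarizable variation
of Hodge structure `𝕍_t = ⊕ R¹π_{i*} ℤ` on `S_t` (on its smooth part). Its period domain is the
product of `n` upper half planes, the quotient by `SL_2 (ℤ)^n` is identified with `Y(1)^n = ℂ^n` by
the elliptic modular function `jj = j = E₄³ / Δ`, and the period map `Φ_t` is given by the
`j`-invariants `6912 A_i³ / (4 A_i³ + 27 B_i²)` (`periodImage t` is its image). The Hodge subvarieties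
are the special subvarieties of `Y(1)^n`.

Let `4 A_i³ + 27 B_i² = c_i (t) Δ_i` with polynomials `c_i ∈ K[t]` and forms `Δ_i` over `K[t]`, and let
`D_1, …, D_M` be finite sets of complex numbers algebraic over `K`, such that for all `α` in `D_l`
* no point of `B_α` lies on `m + 1` of the sets `A_i Δ_i = 0` (at `t = α`), and
* the `c_i` have zeros at `α` (so that all the curves `E_{i,α}` are singular), of orders
  `e_i (α) > 0`, and these orders are independent on polygons: if `U` is a nonempty set of indices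
  `l`, `α_l ∈ D_l` and `i_l ≠ j_l` are coordinates for `l ∈ U`, such that every coordinate occurs an
  even number of times among the `i_l` and the `j_l`, then `∏_{l ∈ U} e_{i_l} (α_l) e_{j_l} (α_l)` is
  not a square. This is so if all these orders are different primes.
(For example `A_i = - 3 a_i²`, `B_i = 2 a_i³ + c_i (t) b_i` with forms `a_i` of degree `2 e_i` and `b_i`
of degree `6 e_i`, `Δ_i = 27 b_i (4 a_i³ + c_i b_i)`; the conditions for `t = α` are that no point of
`B_α` lies on `m + 1` of the divisors `a_i b_i = 0`.)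

**Theorem.** Let `F` be a finite set of complex numbers algebraic over `K`.
1. If the union of any `M - m - 1` or more of the sets `D_l` has at least three elements (for
   instance, if there are `m + 4` disjoint nonempty sets, or `m + 2` disjoint sets with three
   elements), then for all but finitely many `t` in the field generated by `F` the image `Φ_t (S_t)`
   has no atypical intersection with special subvarieties `Z` of `Y(1)^n`: every irreducible
   constructible subset of `Φ_t (S_t) ∩ Z` has dimension at most `dim Z + m - n`, and the same bound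
   holds for the transcendence degrees of its points over `K`.
2. For all but finitely many `t` in the ring generated by `F`, this holds if the union of any
   `M - m - 1` or more of the sets `D_l` has at least two elements.

So, if `Φ_t (S_t)` has dimension `m`, then `codim Φ_t (W) ≥ codim Φ_t (S_t) + codim Z` for all special
subvarieties `W` of `S_t`, components of `Φ_t⁻¹ (Z)`: there is no atypical special subvariety, except
possibly those contained in `S^sing`.
The constant coordinates of `Z` can be special points or integral over the ring generated by any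
given finite set `Γ` of numbers algebraic over `K`.
-/

set_option autoImplicit false

namespace Pool.Agent.Results.MP_0704bf_ag.WeierstrassFewDegenerate

open H294ZP UpperHalfPlane MvPolynomial Pool.Agent.W282.ZP Pool.Agent.W282.LF Pool.Agent.Y152.BD
  Pool.Agent.Y910.Z

/-- A special subvariety of `Y(1)^n = ℂ^n` of dimension `r` (with more constants allowed): a map
`cls` from the coordinates onto `r` classes (`none` for constant coordinates), an integral matrix
of positive determinant for every coordinate, and a constant for every coordinate, which is a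
special point or integral over `Λ`. -/
structure SpecialVariety {Λ : Type} [CommRing Λ] (f : Λ →+* ℂ) (n r : ℕ) where
  cls : Fin n → Option (Fin r)
  surj : ∀ l : Fin r, ∃ i, cls i = some l
  mat : Fin n → Matrix (Fin 2) (Fin 2) ℤ
  det_pos : ∀ i, 0 < (mat i).det
  const : Fin n → ℂ
  allowed : ∀ i, (∃ τ : ℍ, IsCM τ ∧ const i = jj τ) ∨ f.IsIntegralElem (const i)

/-- The points of the special subvariety: the constant coordinates are the given constants, and the
coordinates of class `l` are `j (g_i z_l)`, with a free parameter `z_l` in the upper half plane. -/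
def SpecialVariety.locus {Λ : Type} [CommRing Λ] {f : Λ →+* ℂ} {n r : ℕ}
    (Z : SpecialVariety f n r) : Set (Fin n → ℂ) :=
  {x | ∃ z : Fin r → ℍ, ∀ i, (Z.cls i = none → x i = Z.const i) ∧
    ∀ l, Z.cls i = some l → ∃ w : ℍ,
      (w : ℂ) * (Z.mat i 1 0 * z l + Z.mat i 1 1) = Z.mat i 0 0 * z l + Z.mat i 0 1 ∧
      x i = jj w}

/-- `X` has no intersection of dimension larger than `r + m - n` with special subvarieties `Z` of
dimension `r`: every irreducible closed set `W`, such that its points outside of some hypersurface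
`h = 0`, which does not contain `W`, are in `X ∩ Z`, has dimension at most `r + m - n`, and every
point of `X ∩ Z` has transcendence degree at most `r + m - n` over `K`. -/
def NoAtypical {Λ : Type} [CommRing Λ] (f : Λ →+* ℂ) (K : Subfield ℂ) {n : ℕ} (m : ℕ)
    (X : Set (Fin n → ℂ)) : Prop :=
  ∀ (r : ℕ) (Z : SpecialVariety f n r),
    (∀ (W : Set (Fin n → ℂ)) (h : MvPolynomial (Fin n) ℂ),
      (∀ w ∈ W, eval w h ≠ 0 → w ∈ X ∩ Z.locus) → zcl W ⊆ W → (idealOf W).IsPrime →
      h ∉ idealOf W → zdim W + (n : Cardinal) ≤ (r : Cardinal) + (m : Cardinal)) ∧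
    ∀ x ∈ X ∩ Z.locus, ∀ S : Finset (Fin n), AlgebraicIndependent K (fun i : S => x i) →
      S.card + n ≤ r + m

/-- the value at `t` of a polynomial with coefficients in `K` -/
noncomputable def evalAt (K : Subfield ℂ) (t : ℂ) : Polynomial K →+* ℂ :=
  (Polynomial.aeval t : Polynomial K →ₐ[K] ℂ).toRingHom

/-- `y` is a vector of homogeneous coordinates of a point of the member `B_t` of the family of
projective algebraic sets defined by the forms `G k`. -/
def OnB {K : Subfield ℂ} (t : ℂ) {N : ℕ} {κ : Type}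
    (G : κ → MvPolynomial (Fin (N + 1)) (Polynomial K)) (y : Fin (N + 1) → ℂ) : Prop :=
  y ≠ 0 ∧ ∀ k, eval₂ (evalAt K t) y (G k) = 0

/-- The divisors of the `A i / B i` are in general position at `t`: no point of `B_t` lies on
`m + 1` of them. -/
def InGeneralPosition {K : Subfield ℂ} (t : ℂ) {N n : ℕ} {κ : Type} (m : ℕ)
    (G : κ → MvPolynomial (Fin (N + 1)) (Polynomial K))
    (A B : Fin n → MvPolynomial (Fin (N + 1)) (Polynomial K)) : Prop :=
  ∀ I : Finset (Fin n), I.card = m + 1 → ∀ y : Fin (N + 1) → ℂ, OnB t G y →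
    ∃ i ∈ I, eval₂ (evalAt K t) y (A i) * eval₂ (evalAt K t) y (B i) ≠ 0

/-- The value at `(s, x)` of a polynomial `R = ∑ r_u (J) S^u` in two variables `S` and `J`. -/
noncomputable def valueAt {K : Subfield ℂ} (R : Polynomial (Polynomial K)) (s x : ℂ) : ℂ :=
  Polynomial.eval₂ (Polynomial.aeval x : Polynomial K →ₐ[K] ℂ).toRingHom s R

/-- The member `X_t` of the family of subsets of `Y(1)^n`: the points `x` over which there are
values `s_i` of the functions on the factors of the product of modular curves, with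
`c_i (t) s_i = A_i (y) / B_i (y)` for a point `y` of `B_t`. -/
def scaledImage {K : Subfield ℂ} (t : ℂ) {N n : ℕ} {κ : Type}
    (G : κ → MvPolynomial (Fin (N + 1)) (Polynomial K))
    (A B : Fin n → MvPolynomial (Fin (N + 1)) (Polynomial K))
    (R : Fin n → Polynomial (Polynomial K)) (c : Fin n → Polynomial K) : Set (Fin n → ℂ) :=
  {x | ∃ y, OnB t G y ∧ ∃ s : Fin n → ℂ, ∀ i, valueAt (R i) (s i) (x i) = 0 ∧
    evalAt K t (c i) * eval₂ (evalAt K t) y (B i) * s i = eval₂ (evalAt K t) y (A i)}

/-- The order of the zero of `c` at the complex number `α`. -/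
noncomputable def order {K : Subfield ℂ} (c : Polynomial K) (α : ℂ) : ℕ :=
  (c.map (algebraMap K ℂ)).rootMultiplicity α

/-- The orders of the zeros of the `c i` at the elements of the `D l` are positive and independent
on polygons. -/
def IndependentOrders {K : Subfield ℂ} {n M : ℕ} (T : ℕ) (c : Fin n → Polynomial K)
    (D : Fin M → Finset ℂ) : Prop :=
  (∀ l, ∀ α ∈ D l, ∀ i, 0 < order (c i) α) ∧
  ∀ U : Finset (Fin M), U.Nonempty → ∀ α : Fin M → ℂ, (∀ l ∈ U, α l ∈ D l) →
    ∀ (i j : Fin M → Fin n) (q : Fin M → ℕ), (∀ l ∈ U, i l ≠ j l ∧ 0 < q l ∧ q l ≤ T ^ 4) →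
      (∀ v, Even ((U.filter fun l => i l = v).card + (U.filter fun l => j l = v).card)) →
      ¬ IsSquare (∏ l ∈ U, q l * (order (c (i l)) (α l) * order (c (j l)) (α l)))

/-- Independence for a selection of the sets `D l`. -/
theorem cyc_of_orders {K : Subfield ℂ} {n M L : ℕ} {T : ℕ} {c : Fin n → Polynomial K}
    {D : Fin M → Finset ℂ} (h : IndependentOrders T c D) (f : Fin L → Fin M)
    (hf : Function.Injective f) (α : Fin L → ℂ) (hα : ∀ l, α l ∈ D (f l)) :
    V11322.ZF.Cyc (T ^ 4) fun l i => order (c i) (α l) := by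
  classical
  intro U hU i j t ht hev hsq
  obtain ⟨l₀, hl₀⟩ := hU
  let ext : ∀ {β : Type}, (Fin L → β) → Fin M → β := fun g => Function.extend f g fun _ => g l₀
  have hext : ∀ {β : Type} (g : Fin L → β) (l : Fin L), ext g (f l) = g l := fun g l =>
    hf.extend_apply g _ l
  refine h.2 (U.map ⟨f, hf⟩) ⟨f l₀, Finset.mem_map.2 ⟨l₀, hl₀, rfl⟩⟩ (ext α) ?_ (ext i) (ext j)
    (ext t) ?_ ?_ ?_
  · intro l hl
    obtain ⟨l', -, rfl⟩ := Finset.mem_map.1 hl
    rw [Function.Embedding.coeFn_mk, hext]
    exact hα l'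
  · intro l hl
    obtain ⟨l', hl', rfl⟩ := Finset.mem_map.1 hl
    rw [Function.Embedding.coeFn_mk, hext, hext, hext]
    exact ht l' hl'
  · intro v
    have h1 : ∀ g : Fin L → Fin n, ((U.map ⟨f, hf⟩).filter fun l => ext g l = v).card =
        (U.filter fun l => g l = v).card := by
      intro g
      rw [Finset.filter_map, Finset.card_map]
      congr 1
      refine Finset.filter_congr fun l _ => ?_
      rw [Function.comp_apply, Function.Embedding.coeFn_mk, hext]
    rw [h1, h1]
    exact hev v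
  · rw [Finset.prod_map]
    simp only [Function.Embedding.coeFn_mk, hext]
    exact hsq

/-- The class relation of the points of a special subvariety. -/
theorem rel_of_locus {Λ : Type} [CommRing Λ] {f : Λ →+* ℂ} {n r : ℕ} (Z : SpecialVariety f n r)
    {x : Fin n → ℂ} (hx : x ∈ Z.locus) (i j : Fin n) (l : Fin r) (hi : Z.cls i = some l)
    (hj : Z.cls j = some l) : IsIntegral (Algebra.adjoin ℤ {x i}) (x j) ∧
      Polynomial.eval₂ (Polynomial.aeval (x i) : Polynomial ℂ →ₐ[ℂ] ℂ).toRingHom (x j)
        (Psi ((Z.mat i).det.toNat * (Z.mat j).det.toNat)) = 0 := by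
  obtain ⟨z, hz⟩ := hx
  obtain ⟨w, hw, hxw⟩ := (hz i).2 l hi
  obtain ⟨w', hw', hxw'⟩ := (hz j).2 l hj
  refine ⟨?_, ?_⟩
  · obtain ⟨a, b, c, d, e1, e2⟩ := isogeny_rel (Z.det_pos i) hw hw'
    rw [hxw, hxw']
    exact isogenous_integral w w' a b c d (by
      rw [e1]
      exact mul_pos (Z.det_pos i) (Z.det_pos j)) e2
  · rw [← Int.toNat_mul (Z.det_pos i).le (Z.det_pos j).le, ← eval_relPoly]
    exact eval_relPoly_eq_zero (Z.det_pos i) (Z.det_pos j) hw hw' hxw hxw'

/-- One-parameter families which degenerate at sufficiently many algebraic values of the parameter: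
all but finitely many of the members with parameter in a finitely generated field or ring have no
atypical intersection with special subvarieties. -/
theorem main (K : Subfield ℂ) [Countable K] (κ : Type) [Finite κ] (N n m M T : ℕ)
    (G : κ → MvPolynomial (Fin (N + 1)) (Polynomial K)) (hG : ∀ k, ∃ e, (G k).IsHomogeneous e)
    (A B : Fin n → MvPolynomial (Fin (N + 1)) (Polynomial K)) (δ : Fin n → ℕ)
    (hA : ∀ i, (A i).IsHomogeneous (δ i)) (hB : ∀ i, (B i).IsHomogeneous (δ i))
    (R : Fin n → Polynomial (Polynomial K)) (hR : ∀ i, (R i).Monic)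
    (hT : ∀ i u w, ((R i).coeff u).coeff w ≠ 0 → u ≤ T ∧ w ≤ T)
    (c : Fin n → Polynomial K) (D : Fin M → Finset ℂ) (hD : ∀ l, ∀ α ∈ D l, IsAlgebraic K α)
    (hind : IndependentOrders T c D) (hpos : ∀ l, ∀ α ∈ D l, InGeneralPosition α m G A B)
    (Γ : Finset ℂ) (hΓ : ∀ γ ∈ Γ, IsAlgebraic K γ) (F : Finset ℂ)
    (hF : ∀ z ∈ F, IsAlgebraic K z) :
    ((∀ I : Finset (Fin M), M ≤ I.card + (m + 1) → 3 ≤ (I.biUnion D).card) →
      {t : ℂ | t ∈ Subfield.closure (F : Set ℂ) ∧
        ¬ NoAtypical (algebraMap (Algebra.adjoin ℤ (Γ : Set ℂ)) ℂ) K m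
          (scaledImage t G A B R c)}.Finite) ∧
    ((∀ I : Finset (Fin M), M ≤ I.card + (m + 1) → 2 ≤ (I.biUnion D).card) →
      {t : ℂ | t ∈ Subring.closure (F : Set ℂ) ∧
        ¬ NoAtypical (algebraMap (Algebra.adjoin ℤ (Γ : Set ℂ)) ℂ) K m
          (scaledImage t G A B R c)}.Finite) := by
  classical
  let k := algebraicClosure K ℂ
  have hcl : IsAlgClosure K k := inferInstance
  have hac : IsAlgClosed k := hcl.isAlgClosed
  have hc0k : CharZero k := inferInstance
  let φ : Polynomial K →+* Polynomial k := Polynomial.mapRingHom (algebraMap K k)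
  have hev : ∀ (t : k), (algebraMap k ℂ).comp ((Polynomial.evalRingHom t).comp φ) =
      evalAt K (algebraMap k ℂ t) := by
    intro t
    refine Polynomial.ringHom_ext (fun a => ?_) ?_
    · simp only [φ, evalAt, RingHom.comp_apply, Polynomial.coe_mapRingHom, Polynomial.map_C,
        Polynomial.coe_evalRingHom, Polynomial.eval_C, AlgHom.toRingHom_eq_coe, RingHom.coe_coe,
        Polynomial.aeval_C]
      rfl
    · simp only [φ, evalAt, RingHom.comp_apply, Polynomial.coe_mapRingHom, Polynomial.map_X,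
        Polynomial.coe_evalRingHom, Polynomial.eval_X, AlgHom.toRingHom_eq_coe, RingHom.coe_coe,
        Polynomial.aeval_X]
  have hspec : ∀ (t : k) (P : MvPolynomial (Fin (N + 1)) (Polynomial K)) (y : Fin (N + 1) → ℂ),
      aeval y (TH526.ZL.spec t (MvPolynomial.map φ P)) =
        eval₂ (evalAt K (algebraMap k ℂ t)) y P := by
    intro t P y
    rw [TH526.ZL.spec, MvPolynomial.map_map, aeval_def, eval₂_map, hev]
  have hmult : ∀ (α : k) (i : Fin n), (φ (c i)).rootMultiplicity α =
      order (c i) (algebraMap k ℂ α) := by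
    intro α i
    have h1 := Polynomial.eq_rootMultiplicity_map (p := φ (c i)) (f := algebraMap k ℂ)
      (algebraMap k ℂ).injective α
    rw [h1]
    simp only [φ, order, Polynomial.coe_mapRingHom, Polynomial.map_map]
    rfl
  -- finite sets of algebraic numbers
  have hlift : ∀ S : Finset ℂ, (∀ z ∈ S, IsAlgebraic K z) → ∃ S' : Finset k,
      (∀ z : k, z ∈ S' ↔ algebraMap k ℂ z ∈ S) ∧
      algebraMap k ℂ '' (S' : Set k) = (S : Set ℂ) := by
    intro S hS
    have hmem : ∀ z ∈ S, z ∈ algebraicClosure K ℂ := fun z hz =>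
      mem_algebraicClosure_iff'.2 (hS z hz).isIntegral
    have h1 : ∀ z : k, z ∈ (S.attach.image fun z => (⟨z.1, hmem z.1 z.2⟩ : k)) ↔
        algebraMap k ℂ z ∈ S := by
      intro z
      constructor
      · intro hz
        obtain ⟨w, _, hw⟩ := Finset.mem_image.1 hz
        rw [← hw]
        exact w.2
      · intro hz
        exact Finset.mem_image.2 ⟨⟨z.1, hz⟩, Finset.mem_attach _ _, rfl⟩
    refine ⟨S.attach.image fun z => ⟨z.1, hmem z.1 z.2⟩, h1, ?_⟩
    ext z
    constructor
    · rintro ⟨w, hw, rfl⟩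
      exact (h1 w).1 hw
    · intro hz
      exact ⟨⟨z, hmem z hz⟩, (h1 _).2 hz, rfl⟩
  obtain ⟨Γf, -, hΓf⟩ := hlift Γ hΓ
  let Γ' : Set k := (Γf : Set k)
  have hΓ' : algebraMap k ℂ '' Γ' = (Γ : Set ℂ) := hΓf
  obtain ⟨F', -, hF'⟩ := hlift F hF
  choose D' hD' hD'im using fun l => hlift (D l) (hD l)
  have hcard : ∀ I : Finset (Fin M), (I.biUnion D').card = (I.biUnion D).card := by
    intro I
    rw [← Finset.card_image_of_injective (I.biUnion D') (algebraMap k ℂ).injective]
    congr 1
    ext z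
    simp only [Finset.mem_image, Finset.mem_biUnion]
    constructor
    · rintro ⟨w, ⟨l, hl, hw⟩, rfl⟩
      exact ⟨l, hl, (hD' l w).1 hw⟩
    · rintro ⟨l, hl, hz⟩
      have h1 : z ∈ algebraMap k ℂ '' (D' l : Set k) := by
        rw [hD'im]
        exact hz
      obtain ⟨w, hw, hwz⟩ := h1
      exact ⟨w, ⟨l, hl, hw⟩, hwz⟩
  -- the case without degenerate members
  by_cases hne : ∃ l, (D l).Nonempty
  swap
  · have h0 : ((Finset.univ : Finset (Fin M)).biUnion D).card = 0 := by
      rw [Finset.card_eq_zero, Finset.eq_empty_iff_forall_notMem]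
      intro z hz
      obtain ⟨l, _, hl⟩ := Finset.mem_biUnion.1 hz
      exact hne ⟨l, z, hl⟩
    have h1 : ∀ L, M ≤ (Finset.univ : Finset (Fin M)).card + L := by
      intro L
      rw [Finset.card_univ, Fintype.card_fin]
      omega
    refine ⟨fun h => ?_, fun h => ?_⟩
    all_goals
      exfalso
      have := h Finset.univ (h1 _)
      omega
  let Rt : Finset k := Finset.univ.biUnion D'
  have hRt : ∀ α : k, α ∈ Rt ↔ ∃ l, α ∈ D' l := by
    intro α
    simp only [Rt, Finset.mem_biUnion, Finset.mem_univ, true_and]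
  let ρt : Fin Rt.card → k := fun l => (Rt.equivFin.symm l : k)
  have hρ : ∀ α ∈ Rt, ∃ l, ρt l = α := by
    intro α hα
    refine ⟨Rt.equivFin ⟨α, hα⟩, ?_⟩
    simp [ρt]
  have hρ' : ∀ l, ρt l ∈ Rt := fun l => (Rt.equivFin.symm l).2
  have hc0 : ∀ i, φ (c i) ≠ 0 := by
    intro i h0
    obtain ⟨l, z, hz⟩ := hne
    have h2 : z ∈ algebraMap k ℂ '' (D' l : Set k) := by
      rw [hD'im]
      exact hz
    obtain ⟨α₀, hα₀, rfl⟩ := h2
    have h1 : 0 < order (c i) (algebraMap k ℂ α₀) := hind.1 l _ hz i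
    rw [← hmult, h0, Polynomial.rootMultiplicity_zero] at h1
    exact lt_irrefl _ h1
  obtain ⟨W₀, hW₀, hΓW₀, hnear₀⟩ := nearV (k := k) (m := m) (M := Rt.card)
    (fun i => MvPolynomial.map φ (G i))
    (fun i => by
      obtain ⟨e, he⟩ := hG i
      exact ⟨e, he.map _⟩)
    (fun i => MvPolynomial.map φ (A i)) (fun i => MvPolynomial.map φ (B i)) δ
    (fun i => (hA i).map _) (fun i => (hB i).map _)
    (fun i => (R i).map φ) (fun i => φ (c i)) ρt hc0
    (fun l I hI y h1 h2 => by
      by_contra h0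
      obtain ⟨l', hl'⟩ := (hRt _).1 (hρ' l)
      obtain ⟨i, hi, h3⟩ := hpos l' _ ((hD' _ _).1 hl') I hI y ⟨h0, fun i => by
        have h4 := h1 i
        rw [hspec] at h4
        exact h4⟩
      apply h3
      have h4 := h2 i hi
      rw [hspec, hspec] at h4
      exact h4)
    Γ' (Set.toFinite _)
  -- the finite set of coefficients, with the degenerate parameters
  let W : Finset k := hW₀.toFinset ∪ Rt
  have hW₀W : ∀ z ∈ W₀, z ∈ (W : Set k) := by
    intro z hz
    simp only [W, Finset.coe_union, Set.mem_union, Finset.mem_coe, Set.Finite.mem_toFinset]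
    exact Or.inl hz
  have hRtW : ∀ z ∈ Rt, z ∈ (W : Set k) := by
    intro z hz
    simp only [W, Finset.coe_union, Set.mem_union, Finset.mem_coe]
    exact Or.inr hz
  have hnear : ∀ V : ValuationSubring ℂ, (∀ z ∈ (W : Set k), algebraMap k ℂ z ∈ V) → _ :=
    fun V hV => hnear₀ V fun z hz => hV z (hW₀W z hz)
  have hRk : ∀ i, ((R i).map φ).Monic := fun i => (hR i).map _
  have hTk : ∀ i u w, (((R i).map φ).coeff u).coeff w ≠ 0 → u ≤ T ∧ w ≤ T := by
    intro i u w h0
    rw [Polynomial.coeff_map] at h0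
    change ((Polynomial.mapRingHom (algebraMap K k)) ((R i).coeff u)).coeff w ≠ 0 at h0
    rw [Polynomial.coe_mapRingHom, Polynomial.coeff_map] at h0
    exact hT i u w fun h1 => h0 (by rw [h1, map_zero])
  -- the relations at a point
  have hdata : ∀ (t' : k) (r : ℕ)
      (Z : SpecialVariety (algebraMap (Algebra.adjoin ℤ (Γ : Set ℂ)) ℂ) n r) (x s : Fin n → ℂ)
      (y : Fin (N + 1) → ℂ), x ∈ Z.locus → OnB (algebraMap k ℂ t') G y →
      (∀ i, valueAt (R i) (s i) (x i) = 0 ∧
        evalAt K (algebraMap k ℂ t') (c i) * eval₂ (evalAt K (algebraMap k ℂ t')) y (B i) * s i =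
          eval₂ (evalAt K (algebraMap k ℂ t')) y (A i)) →
      (∀ i, Z.cls i = none → IsIntegral (Algebra.adjoin ℤ (algebraMap k ℂ '' Γ')) (x i)) ∧
      (∀ i, Polynomial.eval₂ (Polynomial.aeval (x i) : Polynomial k →ₐ[k] ℂ).toRingHom (s i)
        ((R i).map φ) = 0) ∧
      (∀ i, aeval y (TH526.ZL.spec t' (MvPolynomial.map φ (G i))) = 0) ∧
      (∀ i, algebraMap k ℂ ((φ (c i)).eval t') *
        aeval y (TH526.ZL.spec t' (MvPolynomial.map φ (B i))) * s i =
        aeval y (TH526.ZL.spec t' (MvPolynomial.map φ (A i)))) := by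
    intro t' r Z x s y hxZ hy hxy
    refine ⟨fun i hi => ?_, fun i => ?_, fun i => ?_, fun i => ?_⟩
    · obtain ⟨z, hz⟩ := hxZ
      rw [hΓ', (hz i).1 hi]
      rcases Z.allowed i with ⟨τ, hτ, hc⟩ | h
      · rw [hc]
        exact (singular_modulus_integral τ hτ).tower_top
      · exact h
    · rw [Polynomial.eval₂_map]
      have h1 : ((Polynomial.aeval (x i) : Polynomial k →ₐ[k] ℂ).toRingHom).comp φ =
          (Polynomial.aeval (x i) : Polynomial K →ₐ[K] ℂ).toRingHom := by
        ext z
        · simp [φ]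
        · simp [φ]
      rw [h1]
      exact (hxy i).1
    · rw [hspec]
      exact hy.2 i
    · rw [hspec, hspec]
      have h1 : algebraMap k ℂ ((φ (c i)).eval t') = evalAt K (algebraMap k ℂ t') (c i) := by
        rw [← hev t']
        rfl
      rw [h1]
      exact (hxy i).2
  have hΓV : ∀ V : ValuationSubring ℂ, (∀ z ∈ (W : Set k), algebraMap k ℂ z ∈ V) →
      ∀ z ∈ Γ', algebraMap k ℂ z ∈ V := fun V hV z hz => hV z (hW₀W z (hΓW₀ hz))
  -- the data at the places
  have hplace : ∀ (t : k) {L : ℕ} (f : Fin L → Fin M)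
      (_ : ∀ l, ∃ a ∈ D' (f l), ¬ Bad (W : Set k) t a)
      (ρ : Type) (x : ρ → ℂ), AlgebraicIndependent k x →
      ∀ l, ∃ (V : ValuationSubring ℂ) (α : k), α ∈ D' (f l) ∧
        V.valuation (algebraMap k ℂ (t - α)) < 1 ∧
        (∀ z ∈ (W : Set k), algebraMap k ℂ z ∈ V) ∧ ∀ j, x j ∈ V := by
    intro t L f hp ρ x hx l
    obtain ⟨a, ha, hbad⟩ := hp l
    obtain ⟨V, h1, h2, h3⟩ := exists_place (W : Set k) (hRtW a ((hRt a).2 ⟨_, ha⟩)) hbad x hx
    exact ⟨V, a, ha, h1, h2, h3⟩
  have hnear' : ∀ (V : ValuationSubring ℂ) (_ : ∀ z ∈ (W : Set k), algebraMap k ℂ z ∈ V)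
      (l : Fin M) (α : k) (_ : α ∈ D' l) (τ : k)
      (_ : V.valuation (algebraMap k ℂ (τ - α)) < 1)
      (s : Fin n → ℂ) (y : Fin (N + 1) → ℂ), y ≠ 0 →
      (∀ i, aeval y (TH526.ZL.spec τ (MvPolynomial.map φ (G i))) = 0) →
      (∀ i, algebraMap k ℂ ((φ (c i)).eval τ) *
        aeval y (TH526.ZL.spec τ (MvPolynomial.map φ (B i))) * s i =
        aeval y (TH526.ZL.spec τ (MvPolynomial.map φ (A i)))) →
      ∃ E : Finset (Fin n), E.card ≤ m ∧ ∀ i, i ∉ E → V.valuation (s i) *
        V.valuation (algebraMap k ℂ (τ - α)) ^ (φ (c i)).rootMultiplicity α = 1 := by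
    intro V hV l α hα τ hτ s y hy h1 h2
    obtain ⟨l', hl'⟩ := hρ α ((hRt α).2 ⟨l, hα⟩)
    have h3 := (hnear V hV).2 l' τ (by rw [hl']; exact hτ) s y hy h1 h2
    rw [hl'] at h3
    exact h3
  -- the core
  have core1 : ∀ (t : k), (∃ f : Fin (m + 1 + 1) → Fin M, Function.Injective f ∧
      ∀ l, ∃ a ∈ D' (f l), ¬ Bad (W : Set k) t a) →
      NoAtypical (algebraMap (Algebra.adjoin ℤ (Γ : Set ℂ)) ℂ) K m
        (scaledImage (algebraMap k ℂ t) G A B R c) := by
    rintro t ⟨f, hf, hp⟩ r Z
    have hpt : ∀ x ∈ scaledImage (algebraMap k ℂ t) G A B R c ∩ Z.locus,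
        ∀ S : Finset (Fin n),
        AlgebraicIndependent K (fun i : S => x i) → S.card + n ≤ r + m := by
      rintro x ⟨⟨y, hy, s, hxy⟩, hxZ⟩ S hS
      have hSk : AlgebraicIndependent k (fun i : S => x i) := hS.extendScalars k
      choose V α hα hV1 hVW hVx using hplace t f hp S _ hSk
      obtain ⟨h1, h2, h3, h4⟩ := hdata t r Z x s y hxZ hy hxy
      refine V11322.ZF.coreF (m := m) (T := T) (fun i => (R i).map φ) hRk hTk
        (fun l i => (φ (c i)).rootMultiplicity (α l))
        (fun l i => by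
          rw [hmult]
          exact hind.1 (f l) _ ((hD' _ _).1 (hα l)) i)
        (by
          have h5 := cyc_of_orders hind f hf (fun l => algebraMap k ℂ (α l))
            (fun l => (hD' _ _).1 (hα l))
          intro U hU i j t' ht' hev hsq
          refine h5 U hU i j t' ht' hev ?_
          simp only [hmult] at hsq
          exact hsq)
        Z.cls (fun i => (Z.mat i).det.toNat) x s
        (fun i => by
          have := Z.det_pos i
          omega)
        (fun i hi => alg_of_int Γ' (h1 i hi)) (fun i j l hi hj => rel_of_locus Z hxZ i j l hi hj)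
        h2 S hSk V
        (fun l => (V l).valuation (algebraMap k ℂ (t - α l))) hV1
        (fun l i hi => v_le_of_int Γ' (V l) (hΓV _ (hVW l)) (h1 i hi))
        (fun l => (hnear (V l) (hVW l)).1) hVx
        (fun l => hnear' (V l) (hVW l) (f l) (α l) (hα l) _ (hV1 l) s y hy.1 h3 h4)
    refine ⟨?_, hpt⟩
    intro A' h' hA' hcl' hprime hh'
    obtain ⟨x, hxW, hfx, T', hT', hdim⟩ := generic_dim_open K A' hprime hcl' h' hh'
    have h2 := hpt x (hA' x hxW hfx) T' hT'
    calc zdim A' + (n : Cardinal) ≤ (T'.card : Cardinal) + (n : Cardinal) := by gcongr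
      _ = ((T'.card + n : ℕ) : Cardinal) := by push_cast; rfl
      _ ≤ ((r + m : ℕ) : Cardinal) := by exact_mod_cast h2
      _ = (r : Cardinal) + (m : Cardinal) := by push_cast; rfl
  -- the parameters lie in the algebraic closure
  have hfield : ∀ t ∈ Subfield.closure (F : Set ℂ), ∃ t' : k,
      t' ∈ Subfield.closure (F' : Set k) ∧ algebraMap k ℂ t' = t := by
    intro t ht
    rw [← hF', ← RingHom.map_field_closure] at ht
    exact Subfield.mem_map.1 ht
  have hring : ∀ t ∈ Subring.closure (F : Set ℂ), ∃ t' : k,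
      t' ∈ Subring.closure (F' : Set k) ∧ algebraMap k ℂ t' = t := by
    intro t ht
    rw [← hF', ← RingHom.map_closure] at ht
    exact Subring.mem_map.1 ht
  refine ⟨fun hM => ?_, fun hM => ?_⟩
  · have h1 := finite_field (L := m + 1) W F' D' (fun I hI => (hcard I).symm ▸ hM I hI)
      {t : k | ¬ NoAtypical (algebraMap (Algebra.adjoin ℤ (Γ : Set ℂ)) ℂ) K m
        (scaledImage (algebraMap k ℂ t) G A B R c)} (fun t ht h => ht (core1 t h))
    refine (h1.image (algebraMap k ℂ)).subset ?_
    rintro t ⟨ht, ht'⟩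
    obtain ⟨t', ht1, rfl⟩ := hfield t ht
    exact ⟨t', ⟨ht1, ht'⟩, rfl⟩
  · have h1 := finite_ring (L := m + 1) W F' D' (fun I hI => (hcard I).symm ▸ hM I hI)
      {t : k | ¬ NoAtypical (algebraMap (Algebra.adjoin ℤ (Γ : Set ℂ)) ℂ) K m
        (scaledImage (algebraMap k ℂ t) G A B R c)} (fun t ht h => ht (core1 t h))
    refine (h1.image (algebraMap k ℂ)).subset ?_
    rintro t ⟨ht, ht'⟩
    obtain ⟨t', ht1, rfl⟩ := hring t ht
    exact ⟨t', ⟨ht1, ht'⟩, rfl⟩

/-- The image `Φ_t (S_t)` of the period map, given by the `j`-invariants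
`1728 · 4 A_i³ / (4 A_i³ + 27 B_i²)` of the curves `y² = x³ + A_i x + B_i`, of the set
`S_t = {b ∈ B_t | 4 A_i (b)³ + 27 B_i (b)² ≠ 0 for all i}`. -/
def periodImage {K : Subfield ℂ} (t : ℂ) {N n : ℕ} {κ : Type}
    (G : κ → MvPolynomial (Fin (N + 1)) (Polynomial K))
    (A B : Fin n → MvPolynomial (Fin (N + 1)) (Polynomial K)) : Set (Fin n → ℂ) :=
  {x | ∃ b, OnB t G b ∧ ∀ i,
    4 * eval₂ (evalAt K t) b (A i) ^ 3 + 27 * eval₂ (evalAt K t) b (B i) ^ 2 ≠ 0 ∧
    x i = 6912 * eval₂ (evalAt K t) b (A i) ^ 3 /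
      (4 * eval₂ (evalAt K t) b (A i) ^ 3 + 27 * eval₂ (evalAt K t) b (B i) ^ 2)}

/-- The orders of the zeros of the `c i` at the elements of the `D l` are positive and independent
on polygons. -/
def PolygonIndependent {K : Subfield ℂ} {n M : ℕ} (c : Fin n → Polynomial K)
    (D : Fin M → Finset ℂ) : Prop :=
  (∀ l, ∀ α ∈ D l, ∀ i, 0 < order (c i) α) ∧
  ∀ U : Finset (Fin M), U.Nonempty → ∀ α : Fin M → ℂ, (∀ l ∈ U, α l ∈ D l) →
    ∀ i j : Fin M → Fin n, (∀ l ∈ U, i l ≠ j l) →
      (∀ v, Even ((U.filter fun l => i l = v).card + (U.filter fun l => j l = v).card)) →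
      ¬ IsSquare (∏ l ∈ U, order (c (i l)) (α l) * order (c (j l)) (α l))

/-- All but finitely many of the members, with parameter in a finitely generated field or ring, of a
one-parameter family of `n`-tuples of Weierstrass families over projective algebraic sets, which
degenerates at sufficiently many algebraic values of the parameter, have no atypical intersections of
the image of the period map with special subvarieties. -/
theorem result (K : Subfield ℂ) [Countable K] (κ : Type) [Finite κ] (N n m M : ℕ)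
    (G : κ → MvPolynomial (Fin (N + 1)) (Polynomial K)) (hG : ∀ k, ∃ e, (G k).IsHomogeneous e)
    (A B Δ : Fin n → MvPolynomial (Fin (N + 1)) (Polynomial K)) (e : Fin n → ℕ)
    (hA : ∀ i, (A i).IsHomogeneous (4 * e i)) (hB : ∀ i, (B i).IsHomogeneous (6 * e i))
    (hΔ : ∀ i, (Δ i).IsHomogeneous (12 * e i)) (c : Fin n → Polynomial K)
    (hdisc : ∀ i, 4 * A i ^ 3 + 27 * B i ^ 2 = C (c i) * Δ i)
    (D : Fin M → Finset ℂ) (hD : ∀ l, ∀ α ∈ D l, IsAlgebraic K α)
    (hind : PolygonIndependent c D) (hpos : ∀ l, ∀ α ∈ D l, InGeneralPosition α m G A Δ)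
    (Γ : Finset ℂ) (hΓ : ∀ γ ∈ Γ, IsAlgebraic K γ) (F : Finset ℂ)
    (hF : ∀ z ∈ F, IsAlgebraic K z) :
    ((∀ I : Finset (Fin M), M ≤ I.card + (m + 1) → 3 ≤ (I.biUnion D).card) →
      {t : ℂ | t ∈ Subfield.closure (F : Set ℂ) ∧
        ¬ NoAtypical (algebraMap (Algebra.adjoin ℤ (Γ : Set ℂ)) ℂ) K m
          (periodImage t G A B)}.Finite) ∧
    ((∀ I : Finset (Fin M), M ≤ I.card + (m + 1) → 2 ≤ (I.biUnion D).card) →
      {t : ℂ | t ∈ Subring.closure (F : Set ℂ) ∧
        ¬ NoAtypical (algebraMap (Algebra.adjoin ℤ (Γ : Set ℂ)) ℂ) K m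
          (periodImage t G A B)}.Finite) := by
  classical
  have hT : ∀ (i : Fin n) (u w : ℕ),
      (((Polynomial.X - Polynomial.C Polynomial.X : Polynomial (Polynomial K))).coeff u).coeff w
        ≠ 0 → u ≤ 1 ∧ w ≤ 1 := by
    intro _ u w h0
    rw [Polynomial.coeff_sub, Polynomial.coeff_X, Polynomial.coeff_C] at h0
    by_cases h1 : u = 1
    · refine ⟨h1.le, ?_⟩
      subst h1
      rw [if_pos rfl, if_neg one_ne_zero, sub_zero, Polynomial.coeff_one] at h0
      by_contra h2
      rw [if_neg (by omega)] at h0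
      exact h0 rfl
    · rw [if_neg (Ne.symm h1), zero_sub] at h0
      by_cases h2 : u = 0
      · refine ⟨by omega, ?_⟩
        rw [if_pos h2, Polynomial.coeff_neg, Polynomial.coeff_X] at h0
        by_contra h3
        rw [if_neg (by omega)] at h0
        exact h0 neg_zero
      · rw [if_neg h2, neg_zero, Polynomial.coeff_zero] at h0
        exact (h0 rfl).elim
  have hind' : IndependentOrders 1 c D := by
    refine ⟨hind.1, ?_⟩
    intro U hU α hα i j q hq hev hsq
    refine hind.2 U hU α hα i j (fun l hl => (hq l hl).1) hev ?_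
    have h1 : ∏ l ∈ U, q l * (order (c (i l)) (α l) * order (c (j l)) (α l)) =
        ∏ l ∈ U, order (c (i l)) (α l) * order (c (j l)) (α l) := by
      refine Finset.prod_congr rfl fun l hl => ?_
      obtain ⟨-, h2, h3⟩ := hq l hl
      have h4 : q l = 1 := by
        rw [one_pow] at h3
        omega
      rw [h4, one_mul]
    rwa [h1] at hsq
  have key := main K κ N n m M 1 G hG (fun i => C (6912 : Polynomial K) * A i ^ 3) Δ
    (fun i => 12 * e i)
    (fun i => by
      have h1 := (isHomogeneous_C (Fin (N + 1)) (6912 : Polynomial K)).mul ((hA i).pow 3)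
      have h2 : 0 + 4 * e i * 3 = 12 * e i := by ring
      rwa [h2] at h1) hΔ
    (fun _ => Polynomial.X - Polynomial.C Polynomial.X) (fun _ => Polynomial.monic_X_sub_C _) hT
    c D hD hind'
    (fun l α hα I hI y hy => by
      obtain ⟨i, hi, h1⟩ := hpos l α hα I hI y hy
      refine ⟨i, hi, ?_⟩
      obtain ⟨h2, h3⟩ := mul_ne_zero_iff.1 h1
      simp only [eval₂_mul, eval₂_pow, eval₂_C]
      refine mul_ne_zero (mul_ne_zero ?_ (pow_ne_zero _ h2)) h3
      rw [map_ofNat]
      norm_num) Γ hΓ F hF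
  have hsub : ∀ t, periodImage t G A B ⊆ scaledImage t G
      (fun i => C (6912 : Polynomial K) * A i ^ 3) Δ
      (fun _ => Polynomial.X - Polynomial.C Polynomial.X) c := by
    rintro t x ⟨y, hy, hx⟩
    refine ⟨y, hy, x, fun i => ⟨?_, ?_⟩⟩
    · simp [valueAt]
    · obtain ⟨h1, h2⟩ := hx i
      have h3 := congrArg (eval₂ (evalAt K t) y) (hdisc i)
      simp only [eval₂_add, eval₂_mul, eval₂_pow, eval₂_C, eval₂_ofNat] at h3
      rw [← h3, h2, mul_div_cancel₀ _ h1]
      simp only [eval₂_mul, eval₂_pow, eval₂_C]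
      rw [map_ofNat]
  have hmono : ∀ t, NoAtypical (algebraMap (Algebra.adjoin ℤ (Γ : Set ℂ)) ℂ) K m
      (scaledImage t G (fun i => C (6912 : Polynomial K) * A i ^ 3) Δ
        (fun _ => Polynomial.X - Polynomial.C Polynomial.X) c) →
      NoAtypical (algebraMap (Algebra.adjoin ℤ (Γ : Set ℂ)) ℂ) K m (periodImage t G A B) := by
    intro t h r Z
    obtain ⟨h1, h2⟩ := h r Z
    refine ⟨fun W g hW => h1 W g fun w hw hg => ?_, fun x hx => h2 x ⟨hsub t hx.1, hx.2⟩⟩
    obtain ⟨h3, h4⟩ := hW w hw hg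
    exact ⟨hsub t h3, h4⟩
  refine ⟨fun h => (key.1 h).subset ?_, fun h => (key.2 h).subset ?_⟩
  · rintro t ⟨h1, h2⟩
    exact ⟨h1, fun h3 => h2 (hmono t h3)⟩
  · rintro t ⟨h1, h2⟩
    exact ⟨h1, fun h3 => h2 (hmono t h3)⟩

end Pool.Agent.Results.MP_0704bf_ag.WeierstrassFewDegenerate
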